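import Pool.Agent.W650.G54.Defs

/-! Kernel verification of the two pointwise inequalities and of the tables. -/

set_option autoImplicit false
set_option maxRecDepth 100000

namespace Pool.Agent.W650.G54

theorem c42_00 : chk42 0 0 = true := by decide +kernel
theorem c42_01 : chk42 0 1 = true := by decide +kernel
theorem c42_10 : chk42 1 0 = true := by decide +kernel
theorem c42_11 : chk42 1 1 = true := by decide +kernel

theorem c33_000 : chk33 0 0 0 = true := by decide +kernel
theorem c33_001 : chk33 0 0 1 = true := by decide +kernel
theorem c33_010 : chk33 0 1 0 = true := by decide +kernel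
theorem c33_011 : chk33 0 1 1 = true := by decide +kernel
theorem c33_100 : chk33 1 0 0 = true := by decide +kernel
theorem c33_101 : chk33 1 0 1 = true := by decide +kernel
theorem c33_110 : chk33 1 1 0 = true := by decide +kernel
theorem c33_111 : chk33 1 1 1 = true := by decide +kernel

def tabA (t : ℕ) : Bool := nall 16 fun f => nall 16 fun g =>
  decide (Int.sub (Int.ofNat (qA t f g)) 16777216 = zsum 12 fun k => Int.mul (Int.ofNat (wt t k)) (Int.mul (la t k f) (la t k g)))

def tabB (t : ℕ) : Bool := nall 16 fun f => nall 16 fun g =>
  decide (Int.sub (Int.ofNat (qB t f g)) 16777216 = zsum 12 fun k => Int.mul (Int.ofNat (wt t k)) (Int.mul (la t k f) (lb t k g)))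

def tabC (t : ℕ) : Bool := nall 16 fun f => nall 16 fun g =>
  decide (Int.sub (Int.ofNat (qA t (sg f) (sg g))) 16777216 = zsum 12 fun k => Int.mul (Int.ofNat (wt t k)) (Int.mul (lb t k f) (lb t k g)))

theorem tA0 : tabA 0 = true := by decide +kernel
theorem tA1 : tabA 1 = true := by decide +kernel
theorem tB0 : tabB 0 = true := by decide +kernel
theorem tB1 : tabB 1 = true := by decide +kernel
theorem tC0 : tabC 0 = true := by decide +kernel
theorem tC1 : tabC 1 = true := by decide +kernel

end Pool.Agent.W650.G54
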