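import Pool.Agent.W650.G54.Graph

/-! Random sign matrices: the matching construction. -/

set_option autoImplicit false
set_option maxHeartbeats 4000000
open Finset
open scoped Classical

namespace Pool.Agent.W650.G54

section
variable {V : Type} [Fintype V]

/-- the parity of the sign matrix `s` on the edge `e` -/
noncomputable def par (A : Finset V) (s : V × V → ZMod 2) (e : Finset V) : ZMod 2 :=
  ∑ a ∈ e ∩ A, ∑ b ∈ e \ A, s (a, b)

/-- the 4-graph of a sign matrix -/
noncomputable def Gs (A : Finset V) (s : V × V → ZMod 2) : Finset (Finset V) :=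
  ((univ : Finset V).powersetCard 4).filter fun e =>
    (e ∩ A).card % 2 = 1 ∨ ((e ∩ A).card = 2 ∧ par A s e = 1)

omit [Fintype V] in
theorem erase_sum {X : Finset V} (hX : X.card = 3) (f : V → ZMod 2) :
    ∑ v ∈ X, ∑ a ∈ X.erase v, f a = 0 := by
  have h1 : ∀ v ∈ X, ∑ a ∈ X.erase v, f a = ∑ a ∈ X, f a - f v := fun v hv => by
    rw [← Finset.sum_erase_add X f hv]; ring
  rw [sum_congr rfl h1, sum_sub_distrib, sum_const, hX]
  have : (3 : ℕ) • (∑ a ∈ X, f a) - ∑ a ∈ X, f a = (2 : ZMod 2) * ∑ a ∈ X, f a := by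
    rw [nsmul_eq_mul]; push_cast; ring
  rw [this, show (2 : ZMod 2) = 0 from by decide, zero_mul]

theorem Gs_card4 (A : Finset V) (s : V × V → ZMod 2) : ∀ e ∈ Gs A s, e.card = 4 := by
  intro e he
  exact (mem_powersetCard.mp (mem_filter.mp he).1).2

theorem Gs_free (A : Finset V) (s : V × V → ZMod 2) :
    ¬ ∃ S : Finset V, S.card = 5 ∧ S.powersetCard 4 ⊆ Gs A s := by
  rintro ⟨S, hS, hsub⟩
  have hmem : ∀ v ∈ S, S.erase v ∈ Gs A s := by
    intro v hv
    apply hsub
    rw [mem_powersetCard]
    exact ⟨erase_subset _ _, by rw [card_erase_of_mem hv, hS]⟩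
  have hcond : ∀ v ∈ S, ((S.erase v) ∩ A).card % 2 = 1 ∨
      (((S.erase v) ∩ A).card = 2 ∧ par A s (S.erase v) = 1) := fun v hv =>
    (mem_filter.mp (hmem v hv)).2
  have hsplit : (S ∩ A).card + (S \ A).card = 5 := by
    rw [card_inter_add_card_sdiff, hS]
  have hin : ∀ v ∈ S ∩ A, (S.erase v) ∩ A = (S ∩ A).erase v ∧ (S.erase v) \ A = S \ A := by
    intro v hv
    rw [mem_inter] at hv
    constructor
    · ext t; simp only [mem_inter, mem_erase]; tauto
    · ext t
      simp only [mem_sdiff, mem_erase]
      constructor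
      · tauto
      · rintro ⟨h1, h2⟩
        exact ⟨⟨fun h => h2 (h ▸ hv.2), h1⟩, h2⟩
  have hout : ∀ v ∈ S \ A, (S.erase v) ∩ A = S ∩ A ∧ (S.erase v) \ A = (S \ A).erase v := by
    intro v hv
    rw [mem_sdiff] at hv
    constructor
    · ext t
      simp only [mem_inter, mem_erase]
      constructor
      · tauto
      · rintro ⟨h1, h2⟩
        exact ⟨⟨fun h => hv.2 (h ▸ h2), h1⟩, h2⟩
    · ext t; simp only [mem_sdiff, mem_erase]; tauto
  have hi : (S ∩ A).card ≤ 5 := by omega
  rcases Nat.lt_or_ge 0 (S ∩ A).card with h0 | h0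
  swap
  · -- no vertex in A
    have hb : 0 < (S \ A).card := by omega
    obtain ⟨v, hv⟩ := card_pos.mp hb
    have hc := hcond v (mem_sdiff.mp hv).1
    rw [(hout v hv).1] at hc
    omega
  obtain ⟨u, hu⟩ := card_pos.mp h0
  have hcu := hcond u (mem_inter.mp hu).1
  rw [(hin u hu).1, card_erase_of_mem hu] at hcu
  by_cases h3 : (S ∩ A).card = 3
  · have hsum : ∑ v ∈ S ∩ A, par A s (S.erase v) = 0 := by
      have : ∀ v ∈ S ∩ A, par A s (S.erase v) = ∑ a ∈ (S ∩ A).erase v, ∑ b ∈ S \ A, s (a, b) := by
        intro v hv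
        unfold par
        rw [(hin v hv).1, (hin v hv).2]
      rw [sum_congr rfl this]
      exact erase_sum h3 (fun a => ∑ b ∈ S \ A, s (a, b))
    have h1 : ∀ v ∈ S ∩ A, par A s (S.erase v) = 1 := by
      intro v hv
      have hc := hcond v (mem_inter.mp hv).1
      rw [(hin v hv).1, card_erase_of_mem hv, h3] at hc
      rcases hc with hc | hc
      · omega
      · exact hc.2
    rw [sum_congr rfl h1, sum_const, h3] at hsum
    exact absurd hsum (by decide)
  by_cases h2 : (S ∩ A).card = 2
  · have h3' : (S \ A).card = 3 := by omega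
    have hsum : ∑ v ∈ S \ A, par A s (S.erase v) = 0 := by
      have : ∀ v ∈ S \ A, par A s (S.erase v) = ∑ b ∈ (S \ A).erase v, ∑ a ∈ S ∩ A, s (a, b) := by
        intro v hv
        unfold par
        rw [(hout v hv).1, (hout v hv).2, sum_comm]
      rw [sum_congr rfl this]
      exact erase_sum h3' (fun b => ∑ a ∈ S ∩ A, s (a, b))
    have h1 : ∀ v ∈ S \ A, par A s (S.erase v) = 1 := by
      intro v hv
      have hc := hcond v (mem_sdiff.mp hv).1
      rw [(hout v hv).1, h2] at hc
      rcases hc with hc | hc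
      · omega
      · exact hc.2
    rw [sum_congr rfl h1, sum_const, h3'] at hsum
    exact absurd hsum (by decide)
  -- remaining cases 1, 4, 5
  have h4 : (S ∩ A).card = 4 := by omega
  have hb : 0 < (S \ A).card := by omega
  obtain ⟨v, hv⟩ := card_pos.mp hb
  have hc := hcond v (mem_sdiff.mp hv).1
  rw [(hout v hv).1] at hc
  omega

theorem Gs_cross (A : Finset V) (s : V × V → ZMod 2) : cross (Gs A s) A = Gs A s := by
  unfold cross
  rw [filter_eq_self]
  intro e he
  have h4 := Gs_card4 A s e he
  have hc := (mem_filter.mp he).2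
  have hsplit : (e ∩ A).card + (e \ A).card = 4 := by
    rw [card_inter_add_card_sdiff, h4]
  have h1 : 0 < (e ∩ A).card := by omega
  have h2 : 0 < (e \ A).card := by omega
  obtain ⟨v, hv⟩ := card_pos.mp h1
  obtain ⟨w, hw⟩ := card_pos.mp h2
  exact ⟨⟨v, (mem_inter.mp hv).1, (mem_inter.mp hv).2⟩, ⟨w, (mem_sdiff.mp hw).1, (mem_sdiff.mp hw).2⟩⟩

/-- half of the sign matrices have odd parity on a given edge -/
theorem half (A e : Finset V) (h1 : 0 < (e ∩ A).card) (h2 : 0 < (e \ A).card) :
    2 * ((univ : Finset (V × V → ZMod 2)).filter fun s => par A s e = 1).card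
      = Fintype.card (V × V → ZMod 2) := by
  obtain ⟨a0, ha⟩ := card_pos.mp h1
  obtain ⟨b0, hb⟩ := card_pos.mp h2
  set φ : (V × V → ZMod 2) → (V × V → ZMod 2) := fun s => s + Pi.single (a0, b0) 1 with hφ
  have hpar : ∀ s, par A (φ s) e = par A s e + 1 := by
    intro s
    unfold par
    simp only [hφ, Pi.add_apply, sum_add_distrib]
    congr 1
    rw [Finset.sum_eq_single a0, Finset.sum_eq_single b0]
    · simp
    · intro b _ hb'
      rw [Pi.single_eq_of_ne]
      intro h; exact hb' (Prod.mk.inj h).2
    · intro h; exact absurd hb h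
    · intro a _ ha'
      refine sum_eq_zero fun b _ => ?_
      rw [Pi.single_eq_of_ne]
      intro h; exact ha' (Prod.mk.inj h).1
    · intro h; exact absurd ha h
  have hinv : ∀ s, φ (φ s) = s := by
    intro s
    simp only [hφ]
    rw [add_assoc, ← Pi.single_add, show (1 : ZMod 2) + 1 = 0 from by decide, Pi.single_zero, add_zero]
  have z2 : ∀ x : ZMod 2, x = 1 ∨ x = 0 := by decide
  have hcard : ((univ : Finset (V × V → ZMod 2)).filter fun s => par A s e = 1).card
      = ((univ : Finset (V × V → ZMod 2)).filter fun s => ¬ par A s e = 1).card := by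
    refine Finset.card_bij' (fun s _ => φ s) (fun s _ => φ s) ?_ ?_ ?_ ?_
    · intro s hs
      rw [mem_filter] at hs ⊢
      refine ⟨mem_univ _, ?_⟩
      rw [hpar, hs.2]; decide
    · intro s hs
      rw [mem_filter] at hs ⊢
      refine ⟨mem_univ _, ?_⟩
      rw [hpar]
      rcases z2 (par A s e) with h | h
      · exact absurd h hs.2
      · rw [h]; decide
    · intro s _; exact hinv s
    · intro s _; exact hinv s
  have := Finset.card_filter_add_card_filter_not (s := (univ : Finset (V × V → ZMod 2)))
    (fun s => par A s e = 1)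
  rw [card_univ] at this
  omega

/-- the matching construction: there is a 4-graph in which no five vertices span all five
quadruples, all of whose edges cross, with the stated number of edges -/
theorem exists_graph (A : Finset V) : ∃ G : Finset (Finset V), (∀ e ∈ G, e.card = 4) ∧
    (¬ ∃ S : Finset V, S.card = 5 ∧ S.powersetCard 4 ⊆ G) ∧ cross G A = G ∧
    2 * (Fintype.card V).choose 4 ≤ 2 * G.card + 2 * A.card.choose 4 + 2 * (Aᶜ.card).choose 4
      + A.card.choose 2 * (Aᶜ.card).choose 2 := by
  set Ω := (V × V → ZMod 2) with hΩ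
  set U := (univ : Finset V).powersetCard 4 with hU
  set O := U.filter fun e => (e ∩ A).card % 2 = 1 with hO
  set W := U.filter fun e => (e ∩ A).card = 2 with hW
  have hUcard : U.card = (Fintype.card V).choose 4 := by
    rw [hU, card_powersetCard, card_univ]
  have hsplit : ∀ e ∈ U, (e ∩ A).card + (e \ A).card = 4 := by
    intro e he
    rw [card_inter_add_card_sdiff, (mem_powersetCard.mp he).2]
  -- total count
  have hcount : ∑ s : Ω, (Gs A s).card = O.card * Fintype.card Ω
      + ∑ e ∈ W, ((univ : Finset Ω).filter fun s => par A s e = 1).card := by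
    have h1 : ∀ s : Ω, (Gs A s).card = ∑ e ∈ U, if ((e ∩ A).card % 2 = 1 ∨
        ((e ∩ A).card = 2 ∧ par A s e = 1)) then 1 else 0 := by
      intro s
      unfold Gs
      rw [card_filter]
    rw [sum_congr rfl fun s _ => h1 s, sum_comm]
    have h2 : ∀ e ∈ U, (∑ s : Ω, if ((e ∩ A).card % 2 = 1 ∨
        ((e ∩ A).card = 2 ∧ par A s e = 1)) then 1 else 0)
        = (if (e ∩ A).card % 2 = 1 then Fintype.card Ω else 0)
          + (if (e ∩ A).card = 2 then ((univ : Finset Ω).filter fun s => par A s e = 1).card else 0) := by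
      intro e _
      by_cases ho : (e ∩ A).card % 2 = 1
      · have hn : ¬ (e ∩ A).card = 2 := by omega
        simp [ho, hn]
      · by_cases h2 : (e ∩ A).card = 2
        · rw [if_neg ho, if_pos h2, zero_add, card_filter]
          refine sum_congr rfl fun s _ => ?_
          simp [h2]
        · simp [ho, h2]
    rw [sum_congr rfl h2, sum_add_distrib, ← sum_filter, ← sum_filter, sum_const, smul_eq_mul]
  have hhalf : 2 * ∑ e ∈ W, ((univ : Finset Ω).filter fun s => par A s e = 1).card
      = W.card * Fintype.card Ω := by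
    rw [mul_sum]
    have : ∀ e ∈ W, 2 * ((univ : Finset Ω).filter fun s => par A s e = 1).card = Fintype.card Ω := by
      intro e he
      rw [hW, mem_filter] at he
      have := hsplit e he.1
      exact half A e (by omega) (by omega)
    rw [sum_congr rfl this, sum_const, smul_eq_mul]
  have hex : ∃ s : Ω, 2 * O.card + W.card ≤ 2 * (Gs A s).card := by
    by_contra hcon
    push Not at hcon
    have hlt : ∑ s : Ω, 2 * (Gs A s).card < ∑ _s : Ω, (2 * O.card + W.card) :=
      sum_lt_sum_of_nonempty univ_nonempty fun s _ => hcon s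
    rw [← mul_sum, sum_const, card_univ, smul_eq_mul, hcount] at hlt
    nlinarith
  obtain ⟨s, hs⟩ := hex
  refine ⟨Gs A s, Gs_card4 A s, Gs_free A s, Gs_cross A s, ?_⟩
  have hWle : W.card ≤ A.card.choose 2 * (Aᶜ.card).choose 2 := by
    rw [← card_powersetCard, ← card_powersetCard, ← card_product]
    refine Finset.card_le_card_of_injOn (fun e => (e ∩ A, e \ A)) ?_ ?_
    · intro e he
      have he' : e ∈ W := he
      rw [hW, mem_filter] at he'
      have := hsplit e he'.1
      simp only [coe_product, Set.mem_prod, mem_coe, mem_powersetCard]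
      refine ⟨⟨inter_subset_right, he'.2⟩, ?_, by omega⟩
      intro t ht
      rw [mem_compl]
      exact (mem_sdiff.mp ht).2
    · intro e _ f _ hef
      have h1 : e ∩ A = f ∩ A := (Prod.mk.inj hef).1
      have h2 : e \ A = f \ A := (Prod.mk.inj hef).2
      rw [← Finset.sdiff_union_inter e A, ← Finset.sdiff_union_inter f A, h1, h2]
  have hUle : U.card ≤ O.card + W.card + A.card.choose 4 + (Aᶜ.card).choose 4 := by
    have hsub : U ⊆ O ∪ W ∪ A.powersetCard 4 ∪ Aᶜ.powersetCard 4 := by
      intro e he
      have h4 := hsplit e he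
      have hc := (mem_powersetCard.mp he).2
      simp only [mem_union, mem_powersetCard, hO, hW, mem_filter]
      have hcases : (e ∩ A).card % 2 = 1 ∨ (e ∩ A).card = 2 ∨ (e ∩ A).card = 4 ∨ (e ∩ A).card = 0 := by
        omega
      rcases hcases with h | h | h | h
      · exact Or.inl (Or.inl (Or.inl ⟨he, h⟩))
      · exact Or.inl (Or.inl (Or.inr ⟨he, h⟩))
      · refine Or.inl (Or.inr ⟨?_, hc⟩)
        have : (e \ A).card = 0 := by omega
        rw [card_eq_zero, sdiff_eq_empty_iff_subset] at this
        exact this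
      · refine Or.inr ⟨?_, hc⟩
        rw [card_eq_zero] at h
        intro t ht
        rw [mem_compl]
        intro htA
        have : t ∈ e ∩ A := mem_inter.mpr ⟨ht, htA⟩
        rw [h] at this
        exact absurd this (notMem_empty t)
    calc U.card ≤ (O ∪ W ∪ A.powersetCard 4 ∪ Aᶜ.powersetCard 4).card := card_le_card hsub
      _ ≤ (O ∪ W ∪ A.powersetCard 4).card + (Aᶜ.powersetCard 4).card := card_union_le _ _
      _ ≤ (O ∪ W).card + (A.powersetCard 4).card + (Aᶜ.powersetCard 4).card := by
          gcongr; exact card_union_le _ _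
      _ ≤ O.card + W.card + (A.powersetCard 4).card + (Aᶜ.powersetCard 4).card := by
          gcongr; exact card_union_le _ _
      _ = _ := by rw [card_powersetCard, card_powersetCard]
  rw [← hUcard]
  omega

end

end Pool.Agent.W650.G54
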