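import Pool.Agent.W650.G54.Sums

/-! The sums of squares and the density inequality for a covering pair of classes. -/

set_option autoImplicit false
set_option maxRecDepth 100000
set_option maxHeartbeats 4000000
open Finset

namespace Pool.Agent.W650.G54

theorem zsum_eq (n : ℕ) (f : ℕ → ℤ) : zsum n f = ∑ k ∈ range n, f k := by
  induction n with
  | zero => rfl
  | succ n ih => rw [sum_range_succ, ← ih]; rfl

theorem tabA_eq {t f k : ℕ} (ht : t < 2) (hf : f < 16) (hk : k < 16) :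
    (qA t f k : ℤ) - 16777216 = ∑ i ∈ range 12, (wt t i : ℤ) * (la t i f * la t i k) := by
  have h : tabA t = true := by
    interval_cases t
    exacts [tA0, tA1]
  have h2 := nall_true (nall_true h f hf) k hk
  have h3 := of_decide_eq_true h2
  rw [zsum_eq] at h3
  exact h3

theorem tabB_eq {t f k : ℕ} (ht : t < 2) (hf : f < 16) (hk : k < 16) :
    (qB t f k : ℤ) - 16777216 = ∑ i ∈ range 12, (wt t i : ℤ) * (la t i f * lb t i k) := by
  have h : tabB t = true := by
    interval_cases t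
    exacts [tB0, tB1]
  have h2 := nall_true (nall_true h f hf) k hk
  have h3 := of_decide_eq_true h2
  rw [zsum_eq] at h3
  exact h3

theorem tabC_eq {t f k : ℕ} (ht : t < 2) (hf : f < 16) (hk : k < 16) :
    (qA t (sg f) (sg k) : ℤ) - 16777216 = ∑ i ∈ range 12, (wt t i : ℤ) * (lb t i f * lb t i k) := by
  have h : tabC t = true := by
    interval_cases t
    exacts [tC0, tC1]
  have h2 := nall_true (nall_true h f hf) k hk
  have h3 := of_decide_eq_true h2
  rw [zsum_eq] at h3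
  exact h3

theorem Bt_lt {n : ℕ} (h : Bt n) : n < 2 := by rcases h with rfl | rfl <;> norm_num

/-- a weighted sum of squares expanded -/
theorem sq_expand {ι κ : Type} [Fintype ι] [Fintype κ] (w : ℕ → ℕ) (u : ℕ → ι → ℤ) (v : ℕ → κ → ℤ) :
    0 ≤ (∑ c, ∑ c', ∑ i ∈ range 12, (w i : ℤ) * (u i c * u i c'))
      + 2 * (∑ c, ∑ z, ∑ i ∈ range 12, (w i : ℤ) * (u i c * v i z))
      + ∑ z, ∑ z', ∑ i ∈ range 12, (w i : ℤ) * (v i z * v i z') := by
  have key : ∀ (ι κ : Type) [Fintype ι] [Fintype κ] (p : ℕ → ι → ℤ) (q : ℕ → κ → ℤ),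
      ∑ c, ∑ z, ∑ i ∈ range 12, (w i : ℤ) * (p i c * q i z)
        = ∑ i ∈ range 12, (w i : ℤ) * ((∑ c, p i c) * ∑ z, q i z) := by
    intro ι κ _ _ p q
    calc ∑ c, ∑ z, ∑ i ∈ range 12, (w i : ℤ) * (p i c * q i z)
        = ∑ c, ∑ i ∈ range 12, ∑ z, (w i : ℤ) * (p i c * q i z) :=
          sum_congr rfl fun c _ => sum_comm
      _ = ∑ i ∈ range 12, ∑ c, ∑ z, (w i : ℤ) * (p i c * q i z) := sum_comm
      _ = _ := by
          refine sum_congr rfl fun i _ => ?_
          rw [Finset.sum_mul_sum, mul_sum]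
          refine sum_congr rfl fun c _ => ?_
          rw [mul_sum]
  rw [key ι ι u u, key ι κ u v, key κ κ v v, mul_sum, ← sum_add_distrib, ← sum_add_distrib]
  refine sum_nonneg fun i _ => ?_
  have : (w i : ℤ) * ((∑ c, u i c) * ∑ c, u i c) + 2 * ((w i : ℤ) * ((∑ c, u i c) * ∑ z, v i z))
      + (w i : ℤ) * ((∑ z, v i z) * ∑ z, v i z) = (w i : ℤ) * ((∑ c, u i c) + ∑ z, v i z) ^ 2 := by
    ring
  rw [this]
  positivity

section
variable {α β : Type} [Fintype α] [Fintype β]
  {g : α → α → α → β → ℕ} {e : α → α → β → β → ℕ} {d : α → β → β → β → ℕ}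

omit [Fintype α] [Fintype β] in
theorem fA_lt (h : Good g e d) (a b : α) (x y : β) (c : α) : fA g e a b x y c < 16 := by
  have := Bt_lt (h.g01 a b c x); have := Bt_lt (h.g01 a b c y)
  have := Bt_lt (h.e01 a c x y); have := Bt_lt (h.e01 b c x y)
  unfold fA; omega

omit [Fintype α] [Fintype β] in
theorem fB_lt (h : Good g e d) (a b : α) (x y z : β) : fB e d a b x y z < 16 := by
  have := Bt_lt (h.e01 a b x z); have := Bt_lt (h.e01 a b y z)
  have := Bt_lt (h.d01 a x y z); have := Bt_lt (h.d01 b x y z)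
  unfold fB; omega

omit [Fintype α] [Fintype β] in
theorem sg_fB (h : Good g e d) (a b : α) (x y z : β) :
    sg (fB e d a b x y z) = fA (fun x y z a => d a x y z) (fun x y a b => e a b x y) x y a b z := by
  have := Bt_lt (h.e01 a b x z); have := Bt_lt (h.e01 a b y z)
  have := Bt_lt (h.d01 a x y z); have := Bt_lt (h.d01 b x y z)
  unfold fB fA
  change (e a b x z + (2 * e a b y z + (4 * d a x y z + 8 * d b x y z))) / 4
    + 4 * ((e a b x z + (2 * e a b y z + (4 * d a x y z + 8 * d b x y z))) % 4)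
    = d a x y z + (2 * d b x y z + (4 * e a b x z + 8 * e a b y z))
  omega

theorem i22 (h : Good g e d) :
    0 ≤ TAA g e - 16777216 * ((Fintype.card α : ℤ) ^ 4 * (Fintype.card β : ℤ) ^ 2)
      + 2 * (TAB g e d - 16777216 * ((Fintype.card α : ℤ) ^ 3 * (Fintype.card β : ℤ) ^ 3))
      + (TAA (fun x y z a => d a x y z) (fun x y a b => e a b x y)
        - 16777216 * ((Fintype.card β : ℤ) ^ 4 * (Fintype.card α : ℤ) ^ 2)) := by
  set n : ℤ := (Fintype.card α : ℤ) with hn
  set m : ℤ := (Fintype.card β : ℤ) with hm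
  have hpt : ∀ (a b : α) (x y : β), 0 ≤
      (∑ c, ∑ c', (PA g e a b c c' x y : ℤ)) - 16777216 * n ^ 2
      + 2 * ((∑ c, ∑ z, (PB g e d a b c x y z : ℤ)) - 16777216 * (n * m))
      + ((∑ z, ∑ z', (PA (fun x y z a => d a x y z) (fun x y a b => e a b x y) x y z z' a b : ℤ))
        - 16777216 * m ^ 2) := by
    intro a b x y
    have ht := Bt_lt (h.e01 a b x y)
    have hsq := sq_expand (ι := α) (κ := β) (fun i => wt (e a b x y) i)
      (fun i c => la (e a b x y) i (fA g e a b x y c)) (fun i z => lb (e a b x y) i (fB e d a b x y z))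
    have r1 : ∀ c c' : α, ∑ i ∈ range 12, (wt (e a b x y) i : ℤ) *
        (la (e a b x y) i (fA g e a b x y c) * la (e a b x y) i (fA g e a b x y c'))
        = (PA g e a b c c' x y : ℤ) - 16777216 := fun c c' =>
      (tabA_eq ht (fA_lt h a b x y c) (fA_lt h a b x y c')).symm
    have r2 : ∀ (c : α) (z : β), ∑ i ∈ range 12, (wt (e a b x y) i : ℤ) *
        (la (e a b x y) i (fA g e a b x y c) * lb (e a b x y) i (fB e d a b x y z))
        = (PB g e d a b c x y z : ℤ) - 16777216 := fun c z =>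
      (tabB_eq ht (fA_lt h a b x y c) (fB_lt h a b x y z)).symm
    have r3 : ∀ z z' : β, ∑ i ∈ range 12, (wt (e a b x y) i : ℤ) *
        (lb (e a b x y) i (fB e d a b x y z) * lb (e a b x y) i (fB e d a b x y z'))
        = (PA (fun x y z a => d a x y z) (fun x y a b => e a b x y) x y z z' a b : ℤ) - 16777216 := by
      intro z z'
      rw [← tabC_eq ht (fB_lt h a b x y z) (fB_lt h a b x y z'), sg_fB h, sg_fB h]
      rfl
    simp only [r1, r2, r3, sum_sub_distrib, sum_const, card_univ, nsmul_eq_mul, ← hn, ← hm] at hsq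
    linarith
  have hs : (0 : ℤ) ≤ ∑ a : α, ∑ b : α, ∑ x : β, ∑ y : β,
      ((∑ c, ∑ c', (PA g e a b c c' x y : ℤ)) - 16777216 * n ^ 2
      + 2 * ((∑ c, ∑ z, (PB g e d a b c x y z : ℤ)) - 16777216 * (n * m))
      + ((∑ z, ∑ z', (PA (fun x y z a => d a x y z) (fun x y a b => e a b x y) x y z z' a b : ℤ))
        - 16777216 * m ^ 2)) :=
    sum_nonneg fun a _ => sum_nonneg fun b _ => sum_nonneg fun x _ => sum_nonneg fun y _ => hpt a b x y
  simp only [sum_add_distrib, sum_sub_distrib, ← mul_sum, sum_const, card_univ, nsmul_eq_mul,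
    ← hn, ← hm] at hs
  have q1 : ∑ a : α, ∑ b : α, ∑ x : β, ∑ y : β, ∑ c, ∑ c', (PA g e a b c c' x y : ℤ) = TAA g e := by
    unfold TAA
    refine sum_congr rfl fun a _ => sum_congr rfl fun b _ => ?_
    exact comm22 (fun x y c c' => (PA g e a b c c' x y : ℤ))
  have q2 : ∑ a : α, ∑ b : α, ∑ x : β, ∑ y : β, ∑ c, ∑ z, (PB g e d a b c x y z : ℤ) = TAB g e d := by
    unfold TAB
    refine sum_congr rfl fun a _ => sum_congr rfl fun b _ => ?_
    calc ∑ x : β, ∑ y : β, ∑ c, ∑ z, (PB g e d a b c x y z : ℤ)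
        = ∑ x : β, ∑ c, ∑ y : β, ∑ z, (PB g e d a b c x y z : ℤ) :=
          sum_congr rfl fun x _ => sum_comm
      _ = _ := sum_comm
  have q3 : ∑ a : α, ∑ b : α, ∑ x : β, ∑ y : β, ∑ z, ∑ z',
      (PA (fun x y z a => d a x y z) (fun x y a b => e a b x y) x y z z' a b : ℤ)
      = TAA (fun x y z a => d a x y z) (fun x y a b => e a b x y) := by
    unfold TAA
    rw [comm22 (fun a b x y => ∑ z, ∑ z',
      (PA (fun x y z a => d a x y z) (fun x y a b => e a b x y) x y z z' a b : ℤ))]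
    refine sum_congr rfl fun x _ => sum_congr rfl fun y _ => ?_
    exact comm22 (fun a b z z' => (PA (fun x y z a => d a x y z) (fun x y a b => e a b x y) x y z z' a b : ℤ))
  rw [q1, q2, q3] at hs
  nlinarith [hs]

omit [Fintype β] in
theorem X1_nonneg (a : α) (x : β) : 0 ≤ X1 g a x := by unfold X1; positivity

omit [Fintype α] in
theorem X2_nonneg (a : α) (x : β) : 0 ≤ X2 d a x := by unfold X2; positivity

omit [Fintype β] in
theorem X1_le (h : Good g e d) (a : α) (x : β) : X1 g a x ≤ (Fintype.card α : ℤ) ^ 2 := by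
  have : X1 g a x ≤ ∑ _b : α, ∑ _c : α, (1 : ℤ) := by
    unfold X1
    refine sum_le_sum fun b _ => sum_le_sum fun c _ => ?_
    have := Bt_lt (h.g01 a b c x)
    omega
  simp only [sum_const, card_univ, nsmul_eq_mul, mul_one] at this
  nlinarith

omit [Fintype α] in
theorem X2_le (h : Good g e d) (a : α) (x : β) : X2 d a x ≤ (Fintype.card β : ℤ) ^ 2 := by
  have : X2 d a x ≤ ∑ _y : β, ∑ _z : β, (1 : ℤ) := by
    unfold X2
    refine sum_le_sum fun y _ => sum_le_sum fun z _ => ?_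
    have := Bt_lt (h.d01 a x y z)
    omega
  simp only [sum_const, card_univ, nsmul_eq_mul, mul_one] at this
  nlinarith

theorem X1_sum : ∑ a, ∑ x, X1 g a x = S31 g := by
  unfold X1 S31
  refine sum_congr rfl fun a _ => ?_
  rw [sum_comm]
  exact sum_congr rfl fun b _ => sum_comm

theorem X2_sum : ∑ a, ∑ x, X2 d a x = S13 d := rfl

theorem i11 (h : Good g e d) :
    0 ≤ 4800 * (64 * (((Fintype.card α : ℤ) - (Fintype.card β : ℤ)) ^ 4
        * ((Fintype.card α : ℤ) * (Fintype.card β : ℤ)))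
      + 112 * ((((Fintype.card α : ℤ) - (Fintype.card β : ℤ)) ^ 2) * (S31 g + S13 d))
      + 49 * ((Fintype.card α : ℤ) ^ 2 * S31 g + 2 * GD g d + (Fintype.card β : ℤ) ^ 2 * S13 d)) := by
  set n : ℤ := (Fintype.card α : ℤ) with hn
  set m : ℤ := (Fintype.card β : ℤ) with hm
  have hs : (0 : ℤ) ≤ ∑ a : α, ∑ x : β, (64 * (n - m) ^ 4 + (112 * (n - m) ^ 2) * (X1 g a x + X2 d a x)
      + 49 * (n ^ 2 * X1 g a x + 2 * (X1 g a x * X2 d a x) + m ^ 2 * X2 d a x)) := by
    refine sum_nonneg fun a _ => sum_nonneg fun x _ => ?_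
    have h1 := X1_nonneg (g := g) a x
    have h2 := X2_nonneg (d := d) a x
    have h3 := X1_le h a x
    have h4 := X2_le h a x
    rw [← hn] at h3
    rw [← hm] at h4
    nlinarith [sq_nonneg (8 * (n - m) ^ 2 + 7 * (X1 g a x + X2 d a x)), mul_nonneg h1 (sub_nonneg.mpr h3),
      mul_nonneg h2 (sub_nonneg.mpr h4)]
  simp only [sum_add_distrib, ← mul_sum, sum_const, card_univ, nsmul_eq_mul, ← hn, ← hm] at hs
  rw [X1_sum, X2_sum] at hs
  change 0 ≤ 64 * (m * (n * (n - m) ^ 4)) + 112 * (n - m) ^ 2 * (S31 g + S13 d)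
    + 49 * (n ^ 2 * S31 g + 2 * GD g d + m ^ 2 * S13 d) at hs
  nlinarith [hs]

theorem S31_nonneg : 0 ≤ S31 g := by unfold S31; positivity
theorem S13_nonneg : 0 ≤ S13 d := by unfold S13; positivity

/-- **Main inequality.**  For a covering pair of classes of sizes `n` and `m`. -/
theorem core (h : Good g e d) :
    5 * ((Fintype.card α : ℤ) + (Fintype.card β : ℤ)) ^ 4 ≤
      16 * ((Fintype.card α : ℤ) ^ 4 + (Fintype.card β : ℤ) ^ 4 + 4 * S31 g + 4 * S13 d + 6 * S22 e) := by
  have h1 := i42 h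
  have h2 := i42 h.swap
  have h3 := i33 h
  have h4 := i22 h
  have h5 := i11 h
  have s1 : S31 (fun x y z a => d a x y z) = S13 d := by
    unfold S31 S13
    exact (comm13 (fun a x y z => (d a x y z : ℤ))).symm
  have s2 : S22 (fun x y a b => e a b x y) = S22 e := by
    unfold S22
    exact comm22 (fun x y a b => (e a b x y : ℤ))
  rw [s1, s2] at h2
  have n1 := S31_nonneg (g := g)
  have n2 := S13_nonneg (d := d)
  set n : ℤ := (Fintype.card α : ℤ) with hn
  set m : ℤ := (Fintype.card β : ℤ) with hm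
  have hn0 : 0 ≤ n := by rw [hn]; positivity
  have hm0 : 0 ≤ m := by rw [hm]; positivity
  have k1 : 0 ≤ n ^ 2 * S31 g := by positivity
  have k2 : 0 ≤ m ^ 2 * S13 d := by positivity
  have key : 5 * (n + m) ^ 6 + 11 * (n - m) ^ 2 * (n ^ 4 + m ^ 4) ≤
      16 * (n + m) ^ 2 * (n ^ 4 + m ^ 4 + 4 * S31 g + 4 * S13 d + 6 * S22 e) := by
    nlinarith [h1, h2, h3, h4, h5, k1, k2]
  have key2 : 0 ≤ 11 * (n - m) ^ 2 * (n ^ 4 + m ^ 4) := by positivity
  rcases eq_or_lt_of_le (add_nonneg hn0 hm0) with h0 | h0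
  · have hn1 : n = 0 := by linarith
    have hm1 : m = 0 := by linarith
    have n3 : 0 ≤ S22 e := by unfold S22; positivity
    rw [hn1, hm1]
    nlinarith
  · have hp : 0 < (n + m) ^ 2 := by positivity
    have : (n + m) ^ 2 * (5 * (n + m) ^ 4) ≤
        (n + m) ^ 2 * (16 * (n ^ 4 + m ^ 4 + 4 * S31 g + 4 * S13 d + 6 * S22 e)) := by nlinarith
    exact le_of_mul_le_mul_left this hp

end

end Pool.Agent.W650.G54
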