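import Pool.Agent.W650.G54.Tab

/-! The two pointwise inequalities as boolean checks. -/

set_option autoImplicit false
set_option maxRecDepth 100000

namespace Pool.Agent.W650.G54

def K42 (e01 e02 e12 e03 e13 e23 g00 g01 g10 g11 g20 g21 g30 g31 : ℕ) : ℕ := (Nat.add (Nat.add (qA e01 (Nat.add g30 (Nat.add (Nat.mul 2 g31) (Nat.add (Nat.mul 4 e02) (Nat.mul 8 e12)))) (Nat.add g20 (Nat.add (Nat.mul 2 g21) (Nat.add (Nat.mul 4 e03) (Nat.mul 8 e13))))) (Nat.add (qA e02 (Nat.add g30 (Nat.add (Nat.mul 2 g31) (Nat.add (Nat.mul 4 e01) (Nat.mul 8 e12)))) (Nat.add g10 (Nat.add (Nat.mul 2 g11) (Nat.add (Nat.mul 4 e03) (Nat.mul 8 e23))))) (qA e12 (Nat.add g30 (Nat.add (Nat.mul 2 g31) (Nat.add (Nat.mul 4 e01) (Nat.mul 8 e02)))) (Nat.add g00 (Nat.add (Nat.mul 2 g01) (Nat.add (Nat.mul 4 e13) (Nat.mul 8 e23))))))) (Nat.add (qA e03 (Nat.add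 g20 (Nat.add (Nat.mul 2 g21) (Nat.add (Nat.mul 4 e01) (Nat.mul 8 e13)))) (Nat.add g10 (Nat.add (Nat.mul 2 g11) (Nat.add (Nat.mul 4 e02) (Nat.mul 8 e23))))) (Nat.add (qA e13 (Nat.add g20 (Nat.add (Nat.mul 2 g21) (Nat.add (Nat.mul 4 e01) (Nat.mul 8 e03)))) (Nat.add g00 (Nat.add (Nat.mul 2 g01) (Nat.add (Nat.mul 4 e12) (Nat.mul 8 e23))))) (qA e23 (Nat.add g10 (Nat.add (Nat.mul 2 g11) (Nat.add (Nat.mul 4 e02) (Nat.mul 8 e03)))) (Nat.add g00 (Nat.add (Nat.mul 2 g01) (Nat.add (Nat.mul 4 e12) (Nat.mul 8 e13))))))))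

def R42 (e01 e02 e12 e03 e13 e23 g00 g01 g10 g11 g20 g21 g30 g31 : ℕ) : ℕ := Nat.add (Nat.mul 2035200 (Nat.add (Nat.add (Nat.add g00 g01) (Nat.add g10 g11)) (Nat.add (Nat.add g20 g21) (Nat.add g30 g31)))) (Nat.add (Nat.mul 1228800 (Nat.add (Nat.add e01 (Nat.add e02 e12)) (Nat.add e03 (Nat.add e13 e23)))) 102660096)

def bad42 (e01 e02 e12 e03 e13 e23 g00 g01 g10 g11 g20 g21 g30 g31 : ℕ) : Bool := (or (Nat.beq (Nat.add (Nat.add e12 e13) (Nat.add e23 (Nat.add g00 g01))) 0) (or (Nat.beq (Nat.add (Nat.add e02 e03) (Nat.add e23 (Nat.add g10 g11))) 0) (or (Nat.beq (Nat.add (Nat.add e01 e03) (Nat.add e13 (Nat.add g20 g21))) 0) (Nat.beq (Nat.add (Nat.add e01 e02) (Nat.add e12 (Nat.add g30 g31))) 0))))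

def chk42 (e01 e02 : ℕ) : Bool := B2 fun e12 => B2 fun e03 => B2 fun e13 => B2 fun e23 => B2 fun g00 => B2 fun g01 => B2 fun g10 => B2 fun g11 => B2 fun g20 => B2 fun g21 => B2 fun g30 => B2 fun g31 => cond (bad42 e01 e02 e12 e03 e13 e23 g00 g01 g10 g11 g20 g21 g30 g31) true (Nat.ble (K42 e01 e02 e12 e03 e13 e23 g00 g01 g10 g11 g20 g21 g30 g31) (R42 e01 e02 e12 e03 e13 e23 g00 g01 g10 g11 g20 g21 g30 g31))

def K33 (e00 e01 e02 e10 e11 e12 e20 e21 e22 g0 g1 g2 d0 d1 d2 : ℕ) : ℕ := (Nat.add (Nat.add (Nat.add (qB e00 (Nat.add g1 (Nat.add (Nat.mul 2 g2) (Nat.add (Nat.mul 4 e20) (Nat.mul 8 e10)))) (Nat.add e02 (Nat.add (Nat.mul 2 e01) (Nat.add (Nat.mul 4 d1) (Nat.mul 8 d2))))) (qB e01 (Nat.add g0 (Nat.add (Nat.mul 2 g2) (Nat.add (Nat.mul 4 e21) (Nat.mul 8 e11)))) (Nat.add e02 (Nat.add (Nat.mul 2 e00) (Nat.add (Nat.mul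 4 d1) (Nat.mul 8 d2)))))) (Nat.add (qB e02 (Nat.add g0 (Nat.add (Nat.mul 2 g1) (Nat.add (Nat.mul 4 e22) (Nat.mul 8 e12)))) (Nat.add e01 (Nat.add (Nat.mul 2 e00) (Nat.add (Nat.mul 4 d1) (Nat.mul 8 d2))))) (qB e10 (Nat.add g1 (Nat.add (Nat.mul 2 g2) (Nat.add (Nat.mul 4 e20) (Nat.mul 8 e00)))) (Nat.add e12 (Nat.add (Nat.mul 2 e11) (Nat.add (Nat.mul 4 d0) (Nat.mul 8 d2))))))) (Nat.add (Nat.add (qB e11 (Nat.add g0 (Nat.add (Nat.mul 2 g2) (Nat.add (Nat.mul 4 e21) (Nat.mul 8 e01)))) (Nat.add e12 (Nat.add (Nat.mul 2 e10) (Nat.add (Nat.mul 4 d0) (Nat.mul 8 d2))))) (qB e12 (Nat.add g0 (Nat.add (Nat.mul 2 g1) (Nat.add (Nat.mul 4 e22) (Nat.mul 8 e02)))) (Nat.add e11 (Nat.add (Nat.mul 2 e10) (Nat.add (Nat.mul 4 d0) (Nat.mul 8 d2)))))) (Nat.add (qB e20 (Nat.add g1 (Nat.add (Nat.mul 2 g2) (Nat.add (Nat.mul 4 e10) (Nat.mul 8 e00))))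 (Nat.add e22 (Nat.add (Nat.mul 2 e21) (Nat.add (Nat.mul 4 d0) (Nat.mul 8 d1))))) (Nat.add (qB e21 (Nat.add g0 (Nat.add (Nat.mul 2 g2) (Nat.add (Nat.mul 4 e11) (Nat.mul 8 e01)))) (Nat.add e22 (Nat.add (Nat.mul 2 e20) (Nat.add (Nat.mul 4 d0) (Nat.mul 8 d1))))) (qB e22 (Nat.add g0 (Nat.add (Nat.mul 2 g1) (Nat.add (Nat.mul 4 e12) (Nat.mul 8 e02)))) (Nat.add e21 (Nat.add (Nat.mul 2 e20) (Nat.add (Nat.mul 4 d0) (Nat.mul 8 d1)))))))))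

def L33 (e00 e01 e02 e10 e11 e12 e20 e21 e22 g0 g1 g2 d0 d1 d2 : ℕ) : ℕ := Nat.add (Nat.mul 2 (K33 e00 e01 e02 e10 e11 e12 e20 e21 e22 g0 g1 g2 d0 d1 d2)) (Nat.add (Nat.mul 470400 (Nat.mul (Nat.add g0 (Nat.add g1 g2)) (Nat.add d0 (Nat.add d1 d2)))) 28108800)

def R33 (e00 e01 e02 e10 e11 e12 e20 e21 e22 g0 g1 g2 d0 d1 d2 : ℕ) : ℕ := Nat.add (Nat.mul 844800 (Nat.add (Nat.add g0 (Nat.add g1 g2)) (Nat.add d0 (Nat.add d1 d2)))) (Nat.add (Nat.mul 2457600 (Nat.add (Nat.add (Nat.add e00 e01) (Nat.add e02 e10)) (Nat.add (Nat.add e11 e12) (Nat.add e20 (Nat.add e21 e22))))) 301989888)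

def bad33 (e00 e01 e02 e10 e11 e12 e20 e21 e22 g0 g1 g2 d0 d1 d2 : ℕ) : Bool := (or (Nat.beq (Nat.add (Nat.add e00 e10) (Nat.add e20 (Nat.add g1 g2))) 0) (or (Nat.beq (Nat.add (Nat.add e01 e11) (Nat.add e21 (Nat.add g2 g0))) 0) (or (Nat.beq (Nat.add (Nat.add e02 e12) (Nat.add e22 (Nat.add g0 g1))) 0) (or (Nat.beq (Nat.add (Nat.add e00 e01) (Nat.add e02 (Nat.add d1 d2))) 0) (or (Nat.beq (Nat.add (Nat.add e10 e11) (Nat.add e12 (Nat.add d2 d0))) 0) (Nat.beq (Nat.add (Nat.add e20 e21) (Nat.add e22 (Nat.add d0 d1))) 0))))))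

def chk33 (e00 e01 e02 : ℕ) : Bool := B2 fun e10 => B2 fun e11 => B2 fun e12 => B2 fun e20 => B2 fun e21 => B2 fun e22 => B2 fun g0 => B2 fun g1 => B2 fun g2 => B2 fun d0 => B2 fun d1 => B2 fun d2 => cond (bad33 e00 e01 e02 e10 e11 e12 e20 e21 e22 g0 g1 g2 d0 d1 d2) true (Nat.ble (L33 e00 e01 e02 e10 e11 e12 e20 e21 e22 g0 g1 g2 d0 d1 d2) (R33 e00 e01 e02 e10 e11 e12 e20 e21 e22 g0 g1 g2 d0 d1 d2))

end Pool.Agent.W650.G54
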