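import Pool.Agent.W650.G54.Constr

/-! Arithmetic and the limit. -/

set_option autoImplicit false
set_option maxHeartbeats 4000000
open Finset Filter Topology
open scoped Classical

namespace Pool.Agent.W650.G54

theorem c4 (k : ℕ) : (24 * (k.choose 4 : ℤ)) = k * (k - 1) * (k - 2) * (k - 3) := by
  rcases Nat.lt_or_ge k 4 with hk | hk
  · interval_cases k <;> simp [Nat.choose]
  · have h2 : k.descFactorial 4 = 24 * k.choose 4 := by
      rw [Nat.descFactorial_eq_factorial_mul_choose]; rfl
    obtain ⟨m, rfl⟩ := Nat.exists_eq_add_of_le hk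
    have h3 : ((4 + m).descFactorial 4 : ℤ) = (4 + m) * (3 + m) * (2 + m) * (1 + m) := by
      simp only [Nat.descFactorial]
      have a1 : 4 + m - 0 = m + 4 := by omega
      have a2 : 4 + m - 1 = m + 3 := by omega
      have a3 : 4 + m - 2 = m + 2 := by omega
      have a4 : 4 + m - 3 = m + 1 := by omega
      rw [a1, a2, a3, a4]; push_cast; ring
    rw [h2] at h3
    push_cast at h3 ⊢
    linarith

theorem c2 (k : ℕ) : (2 * (k.choose 2 : ℤ)) = k * (k - 1) := by
  rcases Nat.lt_or_ge k 2 with hk | hk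
  · interval_cases k <;> simp [Nat.choose]
  · have h2 : k.descFactorial 2 = 2 * k.choose 2 := by
      rw [Nat.descFactorial_eq_factorial_mul_choose]; rfl
    obtain ⟨m, rfl⟩ := Nat.exists_eq_add_of_le hk
    have h3 : ((2 + m).descFactorial 2 : ℤ) = (2 + m) * (1 + m) := by
      simp only [Nat.descFactorial]
      have a1 : 2 + m - 0 = m + 2 := by omega
      have a2 : 2 + m - 1 = m + 1 := by omega
      rw [a1, a2]; push_cast; ring
    rw [h2] at h3
    push_cast at h3 ⊢
    linarith

/-- the sharpness example with at least `(11/16) C(n,4)` edges, for every `n` -/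
theorem sharp (n : ℕ) : ∃ (G : Finset (Finset (Fin n))) (A : Finset (Fin n)), (∀ e ∈ G, e.card = 4) ∧
    (¬ ∃ S : Finset (Fin n), S.card = 5 ∧ S.powersetCard 4 ⊆ G) ∧ cross G A = G ∧
    11 * n.choose 4 ≤ 16 * G.card := by
  obtain ⟨A, -, hA⟩ := Finset.exists_subset_card_eq (s := (univ : Finset (Fin n))) (n := n / 2)
    (by rw [card_univ, Fintype.card_fin]; omega)
  obtain ⟨G, h4, hK, hc, hG⟩ := exists_graph A
  refine ⟨G, A, h4, hK, hc, ?_⟩
  simp only [Finset.card_compl, Fintype.card_fin, hA] at hG
  rcases Nat.lt_or_ge n 5 with hn | hn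
  · rcases Nat.lt_or_ge n 4 with hn4 | hn4
    · rw [Nat.choose_eq_zero_of_lt hn4]; omega
    · have hn' : n = 4 := by omega
      subst hn'
      have e1 : Nat.choose 4 4 = 1 := rfl
      have e2 : Nat.choose (4 / 2) 4 = 0 := rfl
      have e4 : Nat.choose (4 / 2) 2 = 1 := rfl
      rw [e1, e2, e4] at hG
      rw [e1]
      omega
  · have key : 8 * (2 * (n / 2).choose 4 + 2 * (n - n / 2).choose 4
        + (n / 2).choose 2 * (n - n / 2).choose 2) ≤ 5 * n.choose 4 := by
      rcases Nat.even_or_odd' n with ⟨a, rfl | rfl⟩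
      · have e1 : 2 * a / 2 = a := by omega
        have e2 : 2 * a - a = a := by omega
        rw [e1, e2]
        have ha : (3 : ℤ) ≤ a := by omega
        have h1 := c4 a
        have h2 := c2 a
        have h3 := c4 (2 * a)
        zify
        have h4 : 4 * ((a.choose 2 : ℤ) * (a.choose 2 : ℤ)) = (a * (a - 1)) * (a * (a - 1)) := by
          rw [← h2]; ring
        push_cast at h3
        nlinarith [mul_nonneg (mul_nonneg (by linarith : (0 : ℤ) ≤ a) (by linarith : (0 : ℤ) ≤ a - 1))
          (by linarith : (0 : ℤ) ≤ (a : ℤ) - 3)]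
      · have e1 : (2 * a + 1) / 2 = a := by omega
        have e2 : 2 * a + 1 - a = a + 1 := by omega
        rw [e1, e2]
        have ha : (2 : ℤ) ≤ a := by omega
        have h1 := c4 a
        have h1' := c4 (a + 1)
        have h2 := c2 a
        have h2' := c2 (a + 1)
        have h3 := c4 (2 * a + 1)
        zify
        push_cast at h3 h1' h2'
        have h4 : 4 * ((a.choose 2 : ℤ) * ((a + 1).choose 2 : ℤ))
            = (a * (a - 1)) * ((a + 1) * (a + 1 - 1)) := by
          rw [← h2, ← h2']; ring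
        nlinarith [mul_nonneg (mul_nonneg (by linarith : (0 : ℤ) ≤ a) (by linarith : (0 : ℤ) ≤ a - 1))
          (by linarith : (0 : ℤ) ≤ (a : ℤ) - 2)]
    omega

end Pool.Agent.W650.G54
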