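import Pool.Agent.W650.G54.Core
import Pool.Agent.W846.K54.Dens

/-! Crossing edges of a 4-graph without five vertices spanning all five quadruples. -/

set_option autoImplicit false
set_option maxRecDepth 100000
set_option maxHeartbeats 4000000
open Finset
open scoped Classical

namespace Pool.Agent.W650.G54

open Pool.Agent.W846.Dens

/-- the edges of `G` that meet both `A` and its complement -/
noncomputable def cross {V : Type} (G : Finset (Finset V)) (A : Finset V) : Finset (Finset V) :=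
  G.filter fun e => (∃ v ∈ e, v ∈ A) ∧ ∃ v ∈ e, v ∉ A

section
variable {V : Type} [Fintype V]

/-- sums over four vertices taken from prescribed sets -/
noncomputable def T4 (F : V → V → V → V → ℤ) (P Q R S : Finset V) : ℤ :=
  ∑ a ∈ P, ∑ b ∈ Q, ∑ c ∈ R, ∑ d ∈ S, F a b c d

variable {F : V → V → V → V → ℤ}

omit [Fintype V] in
theorem T4_12 (h : ∀ a b c d, F b a c d = F a b c d) (P Q R S : Finset V) :
    T4 F Q P R S = T4 F P Q R S := by
  unfold T4
  rw [sum_comm]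
  simp only [h]

omit [Fintype V] in
theorem T4_23 (h : ∀ a b c d, F a c b d = F a b c d) (P Q R S : Finset V) :
    T4 F P R Q S = T4 F P Q R S := by
  unfold T4
  refine sum_congr rfl fun a _ => ?_
  rw [sum_comm]
  simp only [h]

omit [Fintype V] in
theorem T4_34 (h : ∀ a b c d, F a b d c = F a b c d) (P Q R S : Finset V) :
    T4 F P Q S R = T4 F P Q R S := by
  unfold T4
  refine sum_congr rfl fun a _ => sum_congr rfl fun b _ => ?_
  rw [sum_comm]
  simp only [h]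

theorem T4_split (h12 : ∀ a b c d, F b a c d = F a b c d) (h23 : ∀ a b c d, F a c b d = F a b c d)
    (h34 : ∀ a b c d, F a b d c = F a b c d) (A : Finset V) :
    ∑ a, ∑ b, ∑ c, ∑ d, F a b c d = T4 F A A A A + T4 F Aᶜ Aᶜ Aᶜ Aᶜ + 4 * T4 F A A A Aᶜ
      + 4 * T4 F A Aᶜ Aᶜ Aᶜ + 6 * T4 F A A Aᶜ Aᶜ := by
  have e : ∑ a, ∑ b, ∑ c, ∑ d, F a b c d =
      T4 F A A A A + T4 F A A A Aᶜ + (T4 F A A Aᶜ A + T4 F A A Aᶜ Aᶜ)
      + (T4 F A Aᶜ A A + T4 F A Aᶜ A Aᶜ + (T4 F A Aᶜ Aᶜ A + T4 F A Aᶜ Aᶜ Aᶜ))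
      + (T4 F Aᶜ A A A + T4 F Aᶜ A A Aᶜ + (T4 F Aᶜ A Aᶜ A + T4 F Aᶜ A Aᶜ Aᶜ)
      + (T4 F Aᶜ Aᶜ A A + T4 F Aᶜ Aᶜ A Aᶜ + (T4 F Aᶜ Aᶜ Aᶜ A + T4 F Aᶜ Aᶜ Aᶜ Aᶜ))) := by
    have key : ∀ f : V → ℤ, ∑ v, f v = ∑ v ∈ A, f v + ∑ v ∈ Aᶜ, f v := fun f =>
      (sum_add_sum_compl A f).symm
    simp only [key, sum_add_distrib, T4]
  rw [e]
  rw [T4_34 h34 A A A Aᶜ]
  rw [T4_23 h23 A A Aᶜ A, T4_34 h34 A A A Aᶜ]
  rw [T4_12 h12 A Aᶜ A A, T4_23 h23 A A Aᶜ A, T4_34 h34 A A A Aᶜ]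
  rw [T4_23 h23 A A Aᶜ Aᶜ]
  rw [T4_34 h34 A Aᶜ A Aᶜ, T4_23 h23 A A Aᶜ Aᶜ]
  rw [T4_12 h12 A Aᶜ A Aᶜ, T4_23 h23 A A Aᶜ Aᶜ]
  rw [T4_12 h12 A Aᶜ Aᶜ A, T4_34 h34 A Aᶜ A Aᶜ, T4_23 h23 A A Aᶜ Aᶜ]
  rw [T4_23 h23 Aᶜ A Aᶜ A, T4_34 h34 Aᶜ A A Aᶜ, T4_12 h12 A Aᶜ A Aᶜ, T4_23 h23 A A Aᶜ Aᶜ]
  rw [T4_12 h12 A Aᶜ Aᶜ Aᶜ]
  rw [T4_23 h23 Aᶜ A Aᶜ Aᶜ, T4_12 h12 A Aᶜ Aᶜ Aᶜ]
  rw [T4_34 h34 Aᶜ Aᶜ A Aᶜ, T4_23 h23 Aᶜ A Aᶜ Aᶜ, T4_12 h12 A Aᶜ Aᶜ Aᶜ]
  ring

end

section
variable {V : Type} [Fintype V]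

/-- **Crossing edges.**  In a 4-graph in which no five vertices span all five quadruples, at most
`11 n ^ 4 / 384` edges meet both sides of any partition of the vertex set into two parts. -/
theorem cross_le (G : Finset (Finset V)) (h4 : ∀ e ∈ G, e.card = 4)
    (hK : ¬ ∃ S : Finset V, S.card = 5 ∧ S.powersetCard 4 ⊆ G) (A : Finset V) :
    384 * ((cross G A).card : ℤ) ≤ 11 * (Fintype.card V : ℤ) ^ 4 := by
  set H := cross G A with hH
  have hHG : H ⊆ G := filter_subset _ _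
  have h4' : ∀ e ∈ H, e.card = 4 := fun e he => h4 e (hHG he)
  have hK' : ¬ ∃ S : Finset V, S.card = 5 ∧ S.powersetCard 4 ⊆ H := by
    rintro ⟨S, h1, h2⟩
    exact hK ⟨S, h1, h2.trans hHG⟩
  have hc := fun p a b c d : V => cover h4' hK' p a b c d
  let g : {v // v ∈ A} → {v // v ∈ A} → {v // v ∈ A} → {v // v ∈ Aᶜ} → ℕ :=
    fun a b c x => non H a b c x
  let e : {v // v ∈ A} → {v // v ∈ A} → {v // v ∈ Aᶜ} → {v // v ∈ Aᶜ} → ℕ :=
    fun a b x y => non H a b x y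
  let d : {v // v ∈ A} → {v // v ∈ Aᶜ} → {v // v ∈ Aᶜ} → {v // v ∈ Aᶜ} → ℕ :=
    fun a x y z => non H a x y z
  have hg : Good g e d :=
    { g01 := fun a b c x => non_bit H _ _ _ _
      e01 := fun a b x y => non_bit H _ _ _ _
      d01 := fun a x y z => non_bit H _ _ _ _
      g12 := fun a b c x => non_h2134 H _ _ _ _
      g23 := fun a b c x => non_h1324 H _ _ _ _
      e12 := fun a b x y => non_h2134 H _ _ _ _
      e34 := fun a b x y => non_h1243 H _ _ _ _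
      d23 := fun a x y z => non_h1324 H _ _ _ _
      d34 := fun a x y z => non_h1243 H _ _ _ _
      c32 := fun a b c x y => hc a b c x y
      c23 := fun a b x y z => by
        have := hc a b x y z
        change 1 ≤ non H (a : V) x y z + non H (b : V) x y z + non H (a : V) b x y
          + non H (a : V) b x z + non H (a : V) b y z
        omega }
  have hcore := core hg
  have s1 : S31 g = T4 (fun a b c d => (non H a b c d : ℤ)) A A A Aᶜ := by
    unfold S31 T4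
    simp only [g]
    rw [← Finset.sum_coe_sort A]
    refine sum_congr rfl fun a _ => ?_
    rw [← Finset.sum_coe_sort A]
    refine sum_congr rfl fun b _ => ?_
    rw [← Finset.sum_coe_sort A]
    refine sum_congr rfl fun c _ => ?_
    rw [← Finset.sum_coe_sort Aᶜ]
  have s2 : S22 e = T4 (fun a b c d => (non H a b c d : ℤ)) A A Aᶜ Aᶜ := by
    unfold S22 T4
    simp only [e]
    rw [← Finset.sum_coe_sort A]
    refine sum_congr rfl fun a _ => ?_
    rw [← Finset.sum_coe_sort A]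
    refine sum_congr rfl fun b _ => ?_
    rw [← Finset.sum_coe_sort Aᶜ]
    refine sum_congr rfl fun c _ => ?_
    rw [← Finset.sum_coe_sort Aᶜ]
  have s3 : S13 d = T4 (fun a b c d => (non H a b c d : ℤ)) A Aᶜ Aᶜ Aᶜ := by
    unfold S13 T4
    simp only [d]
    rw [← Finset.sum_coe_sort A]
    refine sum_congr rfl fun a _ => ?_
    rw [← Finset.sum_coe_sort Aᶜ]
    refine sum_congr rfl fun b _ => ?_
    rw [← Finset.sum_coe_sort Aᶜ]
    refine sum_congr rfl fun c _ => ?_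
    rw [← Finset.sum_coe_sort Aᶜ]
  have s4 : T4 (fun a b c d => (non H a b c d : ℤ)) A A A A = (A.card : ℤ) ^ 4 := by
    unfold T4
    have : ∀ a ∈ A, ∀ b ∈ A, ∀ c ∈ A, ∀ d ∈ A, (non H a b c d : ℤ) = 1 := by
      intro a ha b hb c hc d hd
      unfold non
      rw [if_neg]
      · rfl
      · intro hm
        obtain ⟨-, -, v, hv, hvA⟩ := mem_filter.mp hm
        simp only [mem_insert, mem_singleton] at hv
        rcases hv with rfl | rfl | rfl | rfl <;> exact hvA (by assumption)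
    rw [sum_congr rfl fun a ha => sum_congr rfl fun b hb => sum_congr rfl fun c hc =>
      sum_congr rfl fun d hd => this a ha b hb c hc d hd]
    simp only [sum_const, nsmul_eq_mul, mul_one]
    ring
  have s5 : T4 (fun a b c d => (non H a b c d : ℤ)) Aᶜ Aᶜ Aᶜ Aᶜ = (Aᶜ.card : ℤ) ^ 4 := by
    unfold T4
    have : ∀ a ∈ Aᶜ, ∀ b ∈ Aᶜ, ∀ c ∈ Aᶜ, ∀ d ∈ Aᶜ, (non H a b c d : ℤ) = 1 := by
      intro a ha b hb c hc d hd
      unfold non
      rw [if_neg]
      · rfl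
      · intro hm
        obtain ⟨-, ⟨v, hv, hvA⟩, -⟩ := mem_filter.mp hm
        simp only [mem_insert, mem_singleton] at hv
        rw [mem_compl] at ha hb hc hd
        rcases hv with rfl | rfl | rfl | rfl <;> exact absurd hvA (by assumption)
    rw [sum_congr rfl fun a ha => sum_congr rfl fun b hb => sum_congr rfl fun c hc =>
      sum_congr rfl fun d hd => this a ha b hb c hc d hd]
    simp only [sum_const, nsmul_eq_mul, mul_one]
    ring
  have htot := non_sum H h4'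
  rw [T4_split (F := fun a b c d => (non H a b c d : ℤ)) (fun a b c d => by rw [non_h2134])
    (fun a b c d => by rw [non_h1324]) (fun a b c d => by rw [non_h1243]) A, s4, s5] at htot
  rw [s1, s2, s3] at hcore
  have hcard : (A.card : ℤ) + (Aᶜ.card : ℤ) = (Fintype.card V : ℤ) := by
    exact_mod_cast card_add_card_compl A
  rw [Fintype.card_coe, Fintype.card_coe, hcard] at hcore
  linarith

end

end Pool.Agent.W650.G54
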