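import Pool.Agent.W650.G54.Chk

/-! The two pointwise inequalities for a covering pair of classes. -/

set_option autoImplicit false
set_option maxRecDepth 100000
set_option maxHeartbeats 4000000

namespace Pool.Agent.W650.G54

def Bt (n : ℕ) : Prop := n = 0 ∨ n = 1

theorem B2_true {f : ℕ → Bool} (h : B2 f = true) {n : ℕ} (hn : Bt n) : f n = true := by
  have h' : (f 0 && f 1) = true := h
  rw [Bool.and_eq_true] at h'
  rcases hn with rfl | rfl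
  exacts [h'.1, h'.2]

theorem nall_true {n : ℕ} {f : ℕ → Bool} (h : nall n f = true) : ∀ k < n, f k = true := by
  induction n with
  | zero => intro k hk; omega
  | succ n ih =>
    have h' : (nall n f && f n) = true := h
    rw [Bool.and_eq_true] at h'
    intro k hk
    rcases Nat.lt_succ_iff_lt_or_eq.mp hk with hk | rfl
    · exact ih h'.1 k hk
    · exact h'.2

/-- bit inequality for four points of the first class and two of the second -/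
theorem bit42 {e01 e02 e12 e03 e13 e23 g00 g01 g10 g11 g20 g21 g30 g31 : ℕ}
    (h1 : Bt e01) (h2 : Bt e02) (h3 : Bt e12) (h4 : Bt e03) (h5 : Bt e13) (h6 : Bt e23)
    (h7 : Bt g00) (h8 : Bt g01) (h9 : Bt g10) (h10 : Bt g11) (h11 : Bt g20) (h12 : Bt g21)
    (h13 : Bt g30) (h14 : Bt g31)
    (hb : bad42 e01 e02 e12 e03 e13 e23 g00 g01 g10 g11 g20 g21 g30 g31 = false) :
    K42 e01 e02 e12 e03 e13 e23 g00 g01 g10 g11 g20 g21 g30 g31
      ≤ R42 e01 e02 e12 e03 e13 e23 g00 g01 g10 g11 g20 g21 g30 g31 := by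
  have h : chk42 e01 e02 = true := by
    rcases h1 with rfl | rfl <;> rcases h2 with rfl | rfl
    exacts [c42_00, c42_01, c42_10, c42_11]
  have h' := B2_true (B2_true (B2_true (B2_true (B2_true (B2_true (B2_true (B2_true (B2_true (B2_true
    (B2_true (B2_true h h3) h4) h5) h6) h7) h8) h9) h10) h11) h12) h13) h14
  rw [hb, cond_false] at h'
  exact Nat.le_of_ble_eq_true h'

theorem bit33 {e00 e01 e02 e10 e11 e12 e20 e21 e22 g0 g1 g2 d0 d1 d2 : ℕ}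
    (h1 : Bt e00) (h2 : Bt e01) (h3 : Bt e02) (h4 : Bt e10) (h5 : Bt e11) (h6 : Bt e12)
    (h7 : Bt e20) (h8 : Bt e21) (h9 : Bt e22) (h10 : Bt g0) (h11 : Bt g1) (h12 : Bt g2)
    (h13 : Bt d0) (h14 : Bt d1) (h15 : Bt d2)
    (hb : bad33 e00 e01 e02 e10 e11 e12 e20 e21 e22 g0 g1 g2 d0 d1 d2 = false) :
    L33 e00 e01 e02 e10 e11 e12 e20 e21 e22 g0 g1 g2 d0 d1 d2
      ≤ R33 e00 e01 e02 e10 e11 e12 e20 e21 e22 g0 g1 g2 d0 d1 d2 := by
  have h : chk33 e00 e01 e02 = true := by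
    rcases h1 with rfl | rfl <;> rcases h2 with rfl | rfl <;> rcases h3 with rfl | rfl
    exacts [c33_000, c33_001, c33_010, c33_011, c33_100, c33_101, c33_110, c33_111]
  have h' := B2_true (B2_true (B2_true (B2_true (B2_true (B2_true (B2_true (B2_true (B2_true (B2_true
    (B2_true (B2_true h h4) h5) h6) h7) h8) h9) h10) h11) h12) h13) h14) h15
  rw [hb, cond_false] at h'
  exact Nat.le_of_ble_eq_true h'

/-- A covering pair of classes: `g`, `e`, `d` are the indicators of the quadruples with three, two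
and one points in the first class. -/
structure Good {α β : Type} (g : α → α → α → β → ℕ) (e : α → α → β → β → ℕ)
    (d : α → β → β → β → ℕ) : Prop where
  g01 : ∀ a b c x, Bt (g a b c x)
  e01 : ∀ a b x y, Bt (e a b x y)
  d01 : ∀ a x y z, Bt (d a x y z)
  g12 : ∀ a b c x, g b a c x = g a b c x
  g23 : ∀ a b c x, g a c b x = g a b c x
  e12 : ∀ a b x y, e b a x y = e a b x y
  e34 : ∀ a b x y, e a b y x = e a b x y
  d23 : ∀ a x y z, d a y x z = d a x y z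
  d34 : ∀ a x y z, d a x z y = d a x y z
  c32 : ∀ a b c x y, 1 ≤ g a b c x + g a b c y + e a b x y + e a c x y + e b c x y
  c23 : ∀ a b x y z, 1 ≤ d a x y z + d b x y z + e a b x y + e a b x z + e a b y z

theorem Good.swap {α β : Type} {g : α → α → α → β → ℕ} {e : α → α → β → β → ℕ}
    {d : α → β → β → β → ℕ} (h : Good g e d) :
    Good (fun x y z a => d a x y z) (fun x y a b => e a b x y) (fun x a b c => g a b c x) where
  g01 a b c x := h.d01 x a b c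
  e01 a b x y := h.e01 x y a b
  d01 a x y z := h.g01 x y z a
  g12 a b c x := h.d23 x a b c
  g23 a b c x := h.d34 x a b c
  e12 a b x y := h.e34 x y a b
  e34 a b x y := h.e12 x y a b
  d23 a x y z := h.g12 x y z a
  d34 a x y z := h.g23 x y z a
  c32 a b c x y := by
    have := h.c23 x y a b c
    exact this
  c23 a b x y z := by
    have := h.c32 x y z a b
    exact this

section
variable {α β : Type} (g : α → α → α → β → ℕ) (e : α → α → β → β → ℕ) (d : α → β → β → β → ℕ)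

/-- code of an extension in the first class -/
def fA (a b : α) (x y : β) (c : α) : ℕ := g a b c x + (2 * g a b c y + (4 * e a c x y + 8 * e b c x y))

/-- code of an extension in the second class -/
def fB (a b : α) (x y z : β) : ℕ := e a b x z + (2 * e a b y z + (4 * d a x y z + 8 * d b x y z))

def PA (a b c c' : α) (x y : β) : ℕ := qA (e a b x y) (fA g e a b x y c) (fA g e a b x y c')

def PB (a b c : α) (x y z : β) : ℕ := qB (e a b x y) (fA g e a b x y c) (fB e d a b x y z)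

end

section
variable {α β : Type} {g : α → α → α → β → ℕ} {e : α → α → β → β → ℕ} {d : α → β → β → β → ℕ}

theorem beq_zero_false {n : ℕ} (h : 1 ≤ n) : Nat.beq n 0 = false := by
  cases n with
  | zero => omega
  | succ n => rfl

theorem pt42 (h : Good g e d) (a0 a1 a2 a3 : α) (x0 x1 : β) :
    PA g e a0 a1 a2 a3 x0 x1 + PA g e a0 a2 a1 a3 x0 x1 + PA g e a1 a2 a0 a3 x0 x1
      + PA g e a0 a3 a1 a2 x0 x1 + PA g e a1 a3 a0 a2 x0 x1 + PA g e a2 a3 a0 a1 x0 x1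
    ≤ 2035200 * (g a1 a2 a3 x0 + g a1 a2 a3 x1 + g a0 a2 a3 x0 + g a0 a2 a3 x1
        + g a0 a1 a3 x0 + g a0 a1 a3 x1 + g a0 a1 a2 x0 + g a0 a1 a2 x1)
      + 1228800 * (e a0 a1 x0 x1 + e a0 a2 x0 x1 + e a1 a2 x0 x1 + e a0 a3 x0 x1 + e a1 a3 x0 x1
        + e a2 a3 x0 x1) + 102660096 := by
  have hb : bad42 (e a0 a1 x0 x1) (e a0 a2 x0 x1) (e a1 a2 x0 x1) (e a0 a3 x0 x1) (e a1 a3 x0 x1)
      (e a2 a3 x0 x1) (g a1 a2 a3 x0) (g a1 a2 a3 x1) (g a0 a2 a3 x0) (g a0 a2 a3 x1)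
      (g a0 a1 a3 x0) (g a0 a1 a3 x1) (g a0 a1 a2 x0) (g a0 a1 a2 x1) = false := by
    have c0 := h.c32 a1 a2 a3 x0 x1
    have c1 := h.c32 a0 a2 a3 x0 x1
    have c2 := h.c32 a0 a1 a3 x0 x1
    have c3 := h.c32 a0 a1 a2 x0 x1
    unfold bad42
    rw [beq_zero_false (by simp only [Nat.add_eq]; omega), beq_zero_false (by simp only [Nat.add_eq]; omega),
      beq_zero_false (by simp only [Nat.add_eq]; omega), beq_zero_false (by simp only [Nat.add_eq]; omega)]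
    rfl
  have hk := bit42 (h.e01 a0 a1 x0 x1) (h.e01 a0 a2 x0 x1) (h.e01 a1 a2 x0 x1) (h.e01 a0 a3 x0 x1)
    (h.e01 a1 a3 x0 x1) (h.e01 a2 a3 x0 x1) (h.g01 a1 a2 a3 x0) (h.g01 a1 a2 a3 x1)
    (h.g01 a0 a2 a3 x0) (h.g01 a0 a2 a3 x1) (h.g01 a0 a1 a3 x0) (h.g01 a0 a1 a3 x1)
    (h.g01 a0 a1 a2 x0) (h.g01 a0 a1 a2 x1) hb
  have s1 : ∀ x, g a0 a2 a1 x = g a0 a1 a2 x := fun x => h.g23 _ _ _ _
  have s2 : ∀ x, g a1 a2 a0 x = g a0 a1 a2 x := fun x => by rw [h.g23 a1 a0 a2, h.g12 a0 a1 a2]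
  have s3 : ∀ x, g a0 a3 a1 x = g a0 a1 a3 x := fun x => h.g23 _ _ _ _
  have s4 : ∀ x, g a0 a3 a2 x = g a0 a2 a3 x := fun x => h.g23 _ _ _ _
  have s5 : ∀ x, g a1 a3 a0 x = g a0 a1 a3 x := fun x => by rw [h.g23 a1 a0 a3, h.g12 a0 a1 a3]
  have s6 : ∀ x, g a1 a3 a2 x = g a1 a2 a3 x := fun x => h.g23 _ _ _ _
  have s7 : ∀ x, g a2 a3 a0 x = g a0 a2 a3 x := fun x => by rw [h.g23 a2 a0 a3, h.g12 a0 a2 a3]
  have s8 : ∀ x, g a2 a3 a1 x = g a1 a2 a3 x := fun x => by rw [h.g23 a2 a1 a3, h.g12 a1 a2 a3]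
  have t1 : ∀ x y, e a1 a0 x y = e a0 a1 x y := fun x y => h.e12 _ _ _ _
  have t2 : ∀ x y, e a2 a0 x y = e a0 a2 x y := fun x y => h.e12 _ _ _ _
  have t3 : ∀ x y, e a3 a0 x y = e a0 a3 x y := fun x y => h.e12 _ _ _ _
  have t4 : ∀ x y, e a2 a1 x y = e a1 a2 x y := fun x y => h.e12 _ _ _ _
  have t5 : ∀ x y, e a3 a1 x y = e a1 a3 x y := fun x y => h.e12 _ _ _ _
  have t6 : ∀ x y, e a3 a2 x y = e a2 a3 x y := fun x y => h.e12 _ _ _ _
  unfold PA fA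
  rw [s1, s1, s2, s2, s3, s3, s4, s4, s5, s5, s6, s6, s7, s7, s8, s8, t1, t2, t3, t4, t5, t6]
  unfold K42 R42 at hk
  simp only [Nat.add_eq, Nat.mul_eq] at hk
  linarith

theorem pt33 (h : Good g e d) (a0 a1 a2 : α) (x0 x1 x2 : β) :
    2 * (PB g e d a1 a2 a0 x1 x2 x0 + PB g e d a1 a2 a0 x0 x2 x1 + PB g e d a1 a2 a0 x0 x1 x2
      + PB g e d a0 a2 a1 x1 x2 x0 + PB g e d a0 a2 a1 x0 x2 x1 + PB g e d a0 a2 a1 x0 x1 x2
      + PB g e d a0 a1 a2 x1 x2 x0 + PB g e d a0 a1 a2 x0 x2 x1 + PB g e d a0 a1 a2 x0 x1 x2)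
      + 470400 * ((g a0 a1 a2 x0 + g a0 a1 a2 x1 + g a0 a1 a2 x2)
        * (d a0 x0 x1 x2 + d a1 x0 x1 x2 + d a2 x0 x1 x2)) + 28108800
    ≤ 844800 * (g a0 a1 a2 x0 + g a0 a1 a2 x1 + g a0 a1 a2 x2 + d a0 x0 x1 x2 + d a1 x0 x1 x2
        + d a2 x0 x1 x2)
      + 2457600 * (e a1 a2 x1 x2 + e a1 a2 x0 x2 + e a1 a2 x0 x1 + e a0 a2 x1 x2 + e a0 a2 x0 x2
        + e a0 a2 x0 x1 + e a0 a1 x1 x2 + e a0 a1 x0 x2 + e a0 a1 x0 x1) + 301989888 := by
  have hb : bad33 (e a1 a2 x1 x2) (e a1 a2 x0 x2) (e a1 a2 x0 x1) (e a0 a2 x1 x2) (e a0 a2 x0 x2)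
      (e a0 a2 x0 x1) (e a0 a1 x1 x2) (e a0 a1 x0 x2) (e a0 a1 x0 x1)
      (g a0 a1 a2 x0) (g a0 a1 a2 x1) (g a0 a1 a2 x2) (d a0 x0 x1 x2) (d a1 x0 x1 x2)
      (d a2 x0 x1 x2) = false := by
    have c0 := h.c32 a0 a1 a2 x1 x2
    have c1 := h.c32 a0 a1 a2 x0 x2
    have c2 := h.c32 a0 a1 a2 x0 x1
    have c3 := h.c23 a1 a2 x0 x1 x2
    have c4 := h.c23 a0 a2 x0 x1 x2
    have c5 := h.c23 a0 a1 x0 x1 x2
    unfold bad33
    rw [beq_zero_false (by simp only [Nat.add_eq]; omega), beq_zero_false (by simp only [Nat.add_eq]; omega),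
      beq_zero_false (by simp only [Nat.add_eq]; omega), beq_zero_false (by simp only [Nat.add_eq]; omega),
      beq_zero_false (by simp only [Nat.add_eq]; omega), beq_zero_false (by simp only [Nat.add_eq]; omega)]
    rfl
  have hk := bit33 (h.e01 a1 a2 x1 x2) (h.e01 a1 a2 x0 x2) (h.e01 a1 a2 x0 x1) (h.e01 a0 a2 x1 x2)
    (h.e01 a0 a2 x0 x2) (h.e01 a0 a2 x0 x1) (h.e01 a0 a1 x1 x2) (h.e01 a0 a1 x0 x2)
    (h.e01 a0 a1 x0 x1) (h.g01 a0 a1 a2 x0) (h.g01 a0 a1 a2 x1) (h.g01 a0 a1 a2 x2)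
    (h.d01 a0 x0 x1 x2) (h.d01 a1 x0 x1 x2) (h.d01 a2 x0 x1 x2) hb
  have s1 : ∀ x, g a0 a2 a1 x = g a0 a1 a2 x := fun x => h.g23 _ _ _ _
  have s2 : ∀ x, g a1 a2 a0 x = g a0 a1 a2 x := fun x => by rw [h.g23 a1 a0 a2, h.g12 a0 a1 a2]
  have t1 : ∀ x y, e a1 a0 x y = e a0 a1 x y := fun x y => h.e12 _ _ _ _
  have t2 : ∀ x y, e a2 a0 x y = e a0 a2 x y := fun x y => h.e12 _ _ _ _
  have t4 : ∀ x y, e a2 a1 x y = e a1 a2 x y := fun x y => h.e12 _ _ _ _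
  have u1 : ∀ a b, e a b x1 x0 = e a b x0 x1 := fun a b => h.e34 _ _ _ _
  have u2 : ∀ a b, e a b x2 x0 = e a b x0 x2 := fun a b => h.e34 _ _ _ _
  have u3 : ∀ a b, e a b x2 x1 = e a b x1 x2 := fun a b => h.e34 _ _ _ _
  have v1 : ∀ a, d a x0 x2 x1 = d a x0 x1 x2 := fun a => h.d34 _ _ _ _
  have v2 : ∀ a, d a x1 x2 x0 = d a x0 x1 x2 := fun a => by rw [h.d34 a x1 x0 x2, h.d23 a x0 x1 x2]
  unfold PB fA fB
  simp only [s1, s2, t1, t2, t4, u1, u2, u3, v1, v2]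
  unfold L33 K33 R33 at hk
  simp only [Nat.add_eq, Nat.mul_eq] at hk
  linarith

end

end Pool.Agent.W650.G54
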