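import Pool.Agent.W650.G54.Pt

/-! Summation of the pointwise inequalities. -/

set_option autoImplicit false
set_option maxRecDepth 100000
set_option maxHeartbeats 4000000
open Finset

namespace Pool.Agent.W650.G54

section perm
variable {γ δ : Type} [Fintype γ] [Fintype δ]

def v3 (V : Type) : (Fin 3 → V) ≃ V × V × V where
  toFun x := (x 0, x 1, x 2)
  invFun p := ![p.1, p.2.1, p.2.2]
  left_inv x := by funext i; fin_cases i <;> rfl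
  right_inv p := rfl

theorem conv3 (G : γ → γ → γ → ℤ) :
    ∑ x : Fin 3 → γ, G (x 0) (x 1) (x 2) = ∑ a, ∑ b, ∑ c, G a b c := by
  rw [← Equiv.sum_comp (v3 γ).symm]
  simp only [Fintype.sum_prod_type]
  rfl

def v4 (V : Type) : (Fin 4 → V) ≃ V × V × V × V where
  toFun x := (x 0, x 1, x 2, x 3)
  invFun p := ![p.1, p.2.1, p.2.2.1, p.2.2.2]
  left_inv x := by funext i; fin_cases i <;> rfl
  right_inv p := rfl

theorem conv4 (G : γ → γ → γ → γ → ℤ) :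
    ∑ x : Fin 4 → γ, G (x 0) (x 1) (x 2) (x 3) = ∑ a, ∑ b, ∑ c, ∑ d, G a b c d := by
  rw [← Equiv.sum_comp (v4 γ).symm]
  simp only [Fintype.sum_prod_type]
  rfl

theorem perm3 (G : γ → γ → γ → ℤ) (p : Fin 3 → Fin 3) (hp : Function.Bijective p) :
    ∑ x : Fin 3 → γ, G (x (p 0)) (x (p 1)) (x (p 2)) = ∑ a, ∑ b, ∑ c, G a b c := by
  rw [← conv3]
  have h := Equiv.sum_comp (Equiv.arrowCongr (Equiv.ofBijective p hp).symm (Equiv.refl γ))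
    (fun x => G (x 0) (x 1) (x 2))
  rw [← h]
  rfl

theorem perm4 (G : γ → γ → γ → γ → ℤ) (p : Fin 4 → Fin 4) (hp : Function.Bijective p) :
    ∑ x : Fin 4 → γ, G (x (p 0)) (x (p 1)) (x (p 2)) (x (p 3))
      = ∑ a, ∑ b, ∑ c, ∑ d, G a b c d := by
  rw [← conv4]
  have h := Equiv.sum_comp (Equiv.arrowCongr (Equiv.ofBijective p hp).symm (Equiv.refl γ))
    (fun x => G (x 0) (x 1) (x 2) (x 3))
  rw [← h]
  rfl

/-- exchange of two pairs of summation variables -/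
theorem comm22 (F : γ → γ → δ → δ → ℤ) :
    ∑ x, ∑ y, ∑ c, ∑ d, F x y c d = ∑ c, ∑ d, ∑ x, ∑ y, F x y c d := by
  calc ∑ x, ∑ y, ∑ c, ∑ d, F x y c d = ∑ x, ∑ c, ∑ y, ∑ d, F x y c d :=
        sum_congr rfl fun x _ => sum_comm
    _ = ∑ c, ∑ x, ∑ y, ∑ d, F x y c d := sum_comm
    _ = ∑ c, ∑ x, ∑ d, ∑ y, F x y c d :=
        sum_congr rfl fun c _ => sum_congr rfl fun x _ => sum_comm
    _ = ∑ c, ∑ d, ∑ x, ∑ y, F x y c d := sum_congr rfl fun c _ => sum_comm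

theorem comm13 (F : γ → δ → δ → δ → ℤ) :
    ∑ a, ∑ x, ∑ y, ∑ z, F a x y z = ∑ x, ∑ y, ∑ z, ∑ a, F a x y z := by
  calc ∑ a, ∑ x, ∑ y, ∑ z, F a x y z = ∑ x, ∑ a, ∑ y, ∑ z, F a x y z := sum_comm
    _ = ∑ x, ∑ y, ∑ a, ∑ z, F a x y z := sum_congr rfl fun x _ => sum_comm
    _ = ∑ x, ∑ y, ∑ z, ∑ a, F a x y z :=
        sum_congr rfl fun x _ => sum_congr rfl fun y _ => sum_comm

end perm

section
variable {α β : Type} [Fintype α] [Fintype β]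
  (g : α → α → α → β → ℕ) (e : α → α → β → β → ℕ) (d : α → β → β → β → ℕ)

def S31 : ℤ := ∑ a, ∑ b, ∑ c, ∑ x, (g a b c x : ℤ)
def S22 : ℤ := ∑ a, ∑ b, ∑ x, ∑ y, (e a b x y : ℤ)
def S13 : ℤ := ∑ a, ∑ x, ∑ y, ∑ z, (d a x y z : ℤ)

def TAA : ℤ := ∑ a, ∑ b, ∑ c, ∑ c', ∑ x, ∑ y, (PA g e a b c c' x y : ℤ)
def TAB : ℤ := ∑ a, ∑ b, ∑ c, ∑ x, ∑ y, ∑ z, (PB g e d a b c x y z : ℤ)

def X1 (a : α) (x : β) : ℤ := ∑ b, ∑ c, (g a b c x : ℤ)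
def X2 (a : α) (x : β) : ℤ := ∑ y, ∑ z, (d a x y z : ℤ)

def GD : ℤ := ∑ a, ∑ x, X1 g a x * X2 d a x

end

section
variable {α β : Type} [Fintype α] [Fintype β]
  {g : α → α → α → β → ℕ} {e : α → α → β → β → ℕ} {d : α → β → β → β → ℕ}

theorem i42 (h : Good g e d) :
    6 * TAA g e ≤ 16281600 * ((Fintype.card α : ℤ) * (Fintype.card β : ℤ) * S31 g)
      + 7372800 * ((Fintype.card α : ℤ) ^ 2 * S22 e)
      + 102660096 * ((Fintype.card α : ℤ) ^ 4 * (Fintype.card β : ℤ) ^ 2) := by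
  set n : ℤ := (Fintype.card α : ℤ) with hn
  set m : ℤ := (Fintype.card β : ℤ) with hm
  -- inner sums
  let Φ : α → α → α → α → ℤ := fun a b c c' => ∑ x, ∑ y, (PA g e a b c c' x y : ℤ)
  let Γ : α → α → α → ℤ := fun a b c => ∑ x, (g a b c x : ℤ)
  let Ε : α → α → ℤ := fun a b => ∑ x, ∑ y, (e a b x y : ℤ)
  have hpt : ∀ a0 a1 a2 a3 : α,
      Φ a0 a1 a2 a3 + Φ a0 a2 a1 a3 + Φ a1 a2 a0 a3 + Φ a0 a3 a1 a2 + Φ a1 a3 a0 a2 + Φ a2 a3 a0 a1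
      ≤ 2035200 * (2 * m * (Γ a1 a2 a3 + Γ a0 a2 a3 + Γ a0 a1 a3 + Γ a0 a1 a2))
        + 1228800 * (Ε a0 a1 + Ε a0 a2 + Ε a1 a2 + Ε a0 a3 + Ε a1 a3 + Ε a2 a3)
        + 102660096 * m ^ 2 := by
    intro a0 a1 a2 a3
    have h1 : ∑ x, ∑ y, ((PA g e a0 a1 a2 a3 x y : ℤ) + PA g e a0 a2 a1 a3 x y
        + PA g e a1 a2 a0 a3 x y + PA g e a0 a3 a1 a2 x y + PA g e a1 a3 a0 a2 x y
        + PA g e a2 a3 a0 a1 x y) ≤
        ∑ x, ∑ y, (2035200 * ((g a1 a2 a3 x : ℤ) + g a1 a2 a3 y + g a0 a2 a3 x + g a0 a2 a3 y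
          + g a0 a1 a3 x + g a0 a1 a3 y + g a0 a1 a2 x + g a0 a1 a2 y)
          + 1228800 * ((e a0 a1 x y : ℤ) + e a0 a2 x y + e a1 a2 x y + e a0 a3 x y + e a1 a3 x y
            + e a2 a3 x y) + 102660096) :=
      sum_le_sum fun x _ => sum_le_sum fun y _ => by exact_mod_cast pt42 h a0 a1 a2 a3 x y
    simp only [sum_add_distrib, ← mul_sum, sum_const, card_univ, nsmul_eq_mul, ← hm] at h1
    change Φ a0 a1 a2 a3 + Φ a0 a2 a1 a3 + Φ a1 a2 a0 a3 + Φ a0 a3 a1 a2 + Φ a1 a3 a0 a2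
      + Φ a2 a3 a0 a1 ≤ 2035200 * (m * Γ a1 a2 a3 + m * Γ a1 a2 a3 + m * Γ a0 a2 a3
        + m * Γ a0 a2 a3 + m * Γ a0 a1 a3 + m * Γ a0 a1 a3 + m * Γ a0 a1 a2 + m * Γ a0 a1 a2)
        + 1228800 * (Ε a0 a1 + Ε a0 a2 + Ε a1 a2 + Ε a0 a3 + Ε a1 a3 + Ε a2 a3)
        + m * (m * 102660096) at h1
    linarith
  have hs : ∑ x : Fin 4 → α, (Φ (x 0) (x 1) (x 2) (x 3) + Φ (x 0) (x 2) (x 1) (x 3)
      + Φ (x 1) (x 2) (x 0) (x 3) + Φ (x 0) (x 3) (x 1) (x 2) + Φ (x 1) (x 3) (x 0) (x 2)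
      + Φ (x 2) (x 3) (x 0) (x 1)) ≤
      ∑ x : Fin 4 → α, (2035200 * (2 * m * (Γ (x 1) (x 2) (x 3) + Γ (x 0) (x 2) (x 3)
        + Γ (x 0) (x 1) (x 3) + Γ (x 0) (x 1) (x 2)))
        + 1228800 * (Ε (x 0) (x 1) + Ε (x 0) (x 2) + Ε (x 1) (x 2) + Ε (x 0) (x 3) + Ε (x 1) (x 3)
          + Ε (x 2) (x 3)) + 102660096 * m ^ 2) :=
    sum_le_sum fun x _ => hpt _ _ _ _
  have P1 : ∀ p : Fin 4 → Fin 4, Function.Bijective p →
      ∑ x : Fin 4 → α, Φ (x (p 0)) (x (p 1)) (x (p 2)) (x (p 3)) = TAA g e :=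
    fun p hp => perm4 Φ p hp
  have G1 : ∑ a, ∑ b, ∑ c, Γ a b c = S31 g := rfl
  have E1 : ∑ a, ∑ b, Ε a b = S22 e := rfl
  have P2 : ∀ p : Fin 4 → Fin 4, Function.Bijective p →
      ∑ x : Fin 4 → α, Γ (x (p 0)) (x (p 1)) (x (p 2)) = n * S31 g := by
    intro p hp
    rw [perm4 (fun a b c _ => Γ a b c) p hp]
    simp only [sum_const, card_univ, nsmul_eq_mul, ← mul_sum, ← hn]
    rw [G1]
  have P3 : ∀ p : Fin 4 → Fin 4, Function.Bijective p →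
      ∑ x : Fin 4 → α, Ε (x (p 0)) (x (p 1)) = n ^ 2 * S22 e := by
    intro p hp
    rw [perm4 (fun a b _ _ => Ε a b) p hp]
    simp only [sum_const, card_univ, nsmul_eq_mul, ← mul_sum, ← hn]
    rw [E1]; ring
  simp only [sum_add_distrib, ← mul_sum, sum_const, card_univ, Fintype.card_fun, Fintype.card_fin,
    nsmul_eq_mul] at hs
  have b1 := P1 ![0, 1, 2, 3] (Finite.injective_iff_bijective.mp (by decide))
  have b2 := P1 ![0, 2, 1, 3] (Finite.injective_iff_bijective.mp (by decide))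
  have b3 := P1 ![1, 2, 0, 3] (Finite.injective_iff_bijective.mp (by decide))
  have b4 := P1 ![0, 3, 1, 2] (Finite.injective_iff_bijective.mp (by decide))
  have b5 := P1 ![1, 3, 0, 2] (Finite.injective_iff_bijective.mp (by decide))
  have b6 := P1 ![2, 3, 0, 1] (Finite.injective_iff_bijective.mp (by decide))
  have c1 := P2 ![1, 2, 3, 0] (Finite.injective_iff_bijective.mp (by decide))
  have c2 := P2 ![0, 2, 3, 1] (Finite.injective_iff_bijective.mp (by decide))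
  have c3 := P2 ![0, 1, 3, 2] (Finite.injective_iff_bijective.mp (by decide))
  have c4 := P2 ![0, 1, 2, 3] (Finite.injective_iff_bijective.mp (by decide))
  have d1 := P3 ![0, 1, 2, 3] (Finite.injective_iff_bijective.mp (by decide))
  have d2 := P3 ![0, 2, 1, 3] (Finite.injective_iff_bijective.mp (by decide))
  have d3 := P3 ![1, 2, 0, 3] (Finite.injective_iff_bijective.mp (by decide))
  have d4 := P3 ![0, 3, 1, 2] (Finite.injective_iff_bijective.mp (by decide))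
  have d5 := P3 ![1, 3, 0, 2] (Finite.injective_iff_bijective.mp (by decide))
  have d6 := P3 ![2, 3, 0, 1] (Finite.injective_iff_bijective.mp (by decide))
  change ∑ x : Fin 4 → α, Φ (x 0) (x 1) (x 2) (x 3) = _ at b1
  change ∑ x : Fin 4 → α, Φ (x 0) (x 2) (x 1) (x 3) = _ at b2
  change ∑ x : Fin 4 → α, Φ (x 1) (x 2) (x 0) (x 3) = _ at b3
  change ∑ x : Fin 4 → α, Φ (x 0) (x 3) (x 1) (x 2) = _ at b4
  change ∑ x : Fin 4 → α, Φ (x 1) (x 3) (x 0) (x 2) = _ at b5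
  change ∑ x : Fin 4 → α, Φ (x 2) (x 3) (x 0) (x 1) = _ at b6
  change ∑ x : Fin 4 → α, Γ (x 1) (x 2) (x 3) = _ at c1
  change ∑ x : Fin 4 → α, Γ (x 0) (x 2) (x 3) = _ at c2
  change ∑ x : Fin 4 → α, Γ (x 0) (x 1) (x 3) = _ at c3
  change ∑ x : Fin 4 → α, Γ (x 0) (x 1) (x 2) = _ at c4
  change ∑ x : Fin 4 → α, Ε (x 0) (x 1) = _ at d1
  change ∑ x : Fin 4 → α, Ε (x 0) (x 2) = _ at d2
  change ∑ x : Fin 4 → α, Ε (x 1) (x 2) = _ at d3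
  change ∑ x : Fin 4 → α, Ε (x 0) (x 3) = _ at d4
  change ∑ x : Fin 4 → α, Ε (x 1) (x 3) = _ at d5
  change ∑ x : Fin 4 → α, Ε (x 2) (x 3) = _ at d6
  rw [b1, b2, b3, b4, b5, b6, c1, c2, c3, c4, d1, d2, d3, d4, d5, d6] at hs
  push_cast at hs
  rw [← hn] at hs
  linarith

theorem psum3 {γ : Type} [Fintype γ] (G : γ → γ → γ → ℤ) (p : Fin 3 → Fin 3) (hp : Function.Injective p) :
    ∑ x : Fin 3 → γ, G (x (p 0)) (x (p 1)) (x (p 2)) = ∑ x : Fin 3 → γ, G (x 0) (x 1) (x 2) := by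
  rw [perm3 G p (Finite.injective_iff_bijective.mp hp), conv3]

theorem TAB_eq : TAB g e d = ∑ a : Fin 3 → α, ∑ x : Fin 3 → β,
    (PB g e d (a 0) (a 1) (a 2) (x 0) (x 1) (x 2) : ℤ) := by
  have h1 : ∀ a b c : α, ∑ x : Fin 3 → β, (PB g e d a b c (x 0) (x 1) (x 2) : ℤ)
      = ∑ x, ∑ y, ∑ z, (PB g e d a b c x y z : ℤ) := fun a b c =>
    conv3 (fun x y z => (PB g e d a b c x y z : ℤ))
  simp only [h1]
  exact (conv3 (fun a b c => ∑ x, ∑ y, ∑ z, (PB g e d a b c x y z : ℤ))).symm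

theorem S31_eq : (Fintype.card β : ℤ) ^ 2 * S31 g = ∑ a : Fin 3 → α, ∑ x : Fin 3 → β,
    (g (a 0) (a 1) (a 2) (x 0) : ℤ) := by
  have h1 : ∀ a b c : α, ∑ x : Fin 3 → β, (g a b c (x 0) : ℤ)
      = (Fintype.card β : ℤ) ^ 2 * ∑ x, (g a b c x : ℤ) := by
    intro a b c
    rw [conv3 (fun x _ _ => (g a b c x : ℤ))]
    simp only [sum_const, card_univ, nsmul_eq_mul, ← mul_sum]
    ring
  simp only [h1]
  rw [conv3 (fun a b c => (Fintype.card β : ℤ) ^ 2 * ∑ x, (g a b c x : ℤ))]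
  simp only [← mul_sum]
  rfl

theorem S13_eq : (Fintype.card α : ℤ) ^ 2 * S13 d = ∑ a : Fin 3 → α, ∑ x : Fin 3 → β,
    (d (a 0) (x 0) (x 1) (x 2) : ℤ) := by
  have h1 : ∀ a : α, ∑ x : Fin 3 → β, (d a (x 0) (x 1) (x 2) : ℤ)
      = ∑ x, ∑ y, ∑ z, (d a x y z : ℤ) := fun a =>
    conv3 (fun x y z => (d a x y z : ℤ))
  simp only [h1]
  rw [conv3 (fun a _ _ => ∑ x, ∑ y, ∑ z, (d a x y z : ℤ))]
  simp only [sum_const, card_univ, nsmul_eq_mul, ← mul_sum]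
  unfold S13
  ring

theorem S22_eq : (Fintype.card α : ℤ) * (Fintype.card β : ℤ) * S22 e = ∑ a : Fin 3 → α, ∑ x : Fin 3 → β,
    (e (a 0) (a 1) (x 0) (x 1) : ℤ) := by
  have h1 : ∀ a b : α, ∑ x : Fin 3 → β, (e a b (x 0) (x 1) : ℤ)
      = (Fintype.card β : ℤ) * ∑ x, ∑ y, (e a b x y : ℤ) := by
    intro a b
    rw [conv3 (fun x y _ => (e a b x y : ℤ))]
    simp only [sum_const, card_univ, nsmul_eq_mul, ← mul_sum]
  simp only [h1]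
  rw [conv3 (fun a b _ => (Fintype.card β : ℤ) * ∑ x, ∑ y, (e a b x y : ℤ))]
  simp only [sum_const, card_univ, nsmul_eq_mul, ← mul_sum]
  unfold S22
  ring

theorem GD_eq : GD g d = ∑ a : Fin 3 → α, ∑ x : Fin 3 → β,
    (g (a 0) (a 1) (a 2) (x 0) : ℤ) * (d (a 0) (x 0) (x 1) (x 2) : ℤ) := by
  have h1 : ∀ a b c : α, ∑ x : Fin 3 → β, (g a b c (x 0) : ℤ) * (d a (x 0) (x 1) (x 2) : ℤ)
      = ∑ x, (g a b c x : ℤ) * X2 d a x := by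
    intro a b c
    rw [conv3 (fun x y z => (g a b c x : ℤ) * (d a x y z : ℤ))]
    simp only [← mul_sum]
    rfl
  simp only [h1]
  rw [conv3 (fun a b c => ∑ x, (g a b c x : ℤ) * X2 d a x)]
  unfold GD X1
  refine sum_congr rfl fun a _ => ?_
  simp only [sum_mul]
  rw [sum_comm]
  refine sum_congr rfl fun b _ => ?_
  rw [sum_comm]

/-- permuting both triples of variables -/
theorem pp {F : α → α → α → β → β → β → ℤ} {T : ℤ}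
    (hF : ∑ a : Fin 3 → α, ∑ x : Fin 3 → β, F (a 0) (a 1) (a 2) (x 0) (x 1) (x 2) = T)
    (p q : Fin 3 → Fin 3) (hp : Function.Injective p) (hq : Function.Injective q) :
    ∑ a : Fin 3 → α, ∑ x : Fin 3 → β,
      F (a (p 0)) (a (p 1)) (a (p 2)) (x (q 0)) (x (q 1)) (x (q 2)) = T := by
  rw [← hF]
  have h1 : ∀ a b c : α, ∑ x : Fin 3 → β, F a b c (x (q 0)) (x (q 1)) (x (q 2))
      = ∑ x : Fin 3 → β, F a b c (x 0) (x 1) (x 2) := fun a b c => psum3 (F a b c) q hq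
  simp only [h1]
  exact psum3 (fun a b c => ∑ x : Fin 3 → β, F a b c (x 0) (x 1) (x 2)) p hp

theorem i33 (h : Good g e d) :
    18 * TAB g e d + 4233600 * GD g d
      + 28108800 * ((Fintype.card α : ℤ) ^ 3 * (Fintype.card β : ℤ) ^ 3) ≤
    2534400 * ((Fintype.card β : ℤ) ^ 2 * S31 g + (Fintype.card α : ℤ) ^ 2 * S13 d)
      + 22118400 * ((Fintype.card α : ℤ) * (Fintype.card β : ℤ) * S22 e)
      + 301989888 * ((Fintype.card α : ℤ) ^ 3 * (Fintype.card β : ℤ) ^ 3) := by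
  have hs : ∑ a : Fin 3 → α, ∑ x : Fin 3 → β,
      (2 * ((PB g e d (a 1) (a 2) (a 0) (x 1) (x 2) (x 0) : ℤ)
      + PB g e d (a 1) (a 2) (a 0) (x 0) (x 2) (x 1) + PB g e d (a 1) (a 2) (a 0) (x 0) (x 1) (x 2)
      + PB g e d (a 0) (a 2) (a 1) (x 1) (x 2) (x 0) + PB g e d (a 0) (a 2) (a 1) (x 0) (x 2) (x 1)
      + PB g e d (a 0) (a 2) (a 1) (x 0) (x 1) (x 2) + PB g e d (a 0) (a 1) (a 2) (x 1) (x 2) (x 0)
      + PB g e d (a 0) (a 1) (a 2) (x 0) (x 2) (x 1) + PB g e d (a 0) (a 1) (a 2) (x 0) (x 1) (x 2))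
      + 470400 * (
        (g (a 0) (a 1) (a 2) (x 0) : ℤ) * (d (a 0) (x 0) (x 1) (x 2) : ℤ)
        + (g (a 0) (a 1) (a 2) (x 0) : ℤ) * (d (a 1) (x 0) (x 1) (x 2) : ℤ)
        + (g (a 0) (a 1) (a 2) (x 0) : ℤ) * (d (a 2) (x 0) (x 1) (x 2) : ℤ)
        + (g (a 0) (a 1) (a 2) (x 1) : ℤ) * (d (a 0) (x 0) (x 1) (x 2) : ℤ)
        + (g (a 0) (a 1) (a 2) (x 1) : ℤ) * (d (a 1) (x 0) (x 1) (x 2) : ℤ)
        + (g (a 0) (a 1) (a 2) (x 1) : ℤ) * (d (a 2) (x 0) (x 1) (x 2) : ℤ)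
        + (g (a 0) (a 1) (a 2) (x 2) : ℤ) * (d (a 0) (x 0) (x 1) (x 2) : ℤ)
        + (g (a 0) (a 1) (a 2) (x 2) : ℤ) * (d (a 1) (x 0) (x 1) (x 2) : ℤ)
        + (g (a 0) (a 1) (a 2) (x 2) : ℤ) * (d (a 2) (x 0) (x 1) (x 2) : ℤ)) + 28108800) ≤
      ∑ a : Fin 3 → α, ∑ x : Fin 3 → β,
      (844800 * ((g (a 0) (a 1) (a 2) (x 0) : ℤ) + g (a 0) (a 1) (a 2) (x 1)
        + g (a 0) (a 1) (a 2) (x 2) + d (a 0) (x 0) (x 1) (x 2) + d (a 1) (x 0) (x 1) (x 2)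
        + d (a 2) (x 0) (x 1) (x 2))
      + 2457600 * ((e (a 1) (a 2) (x 1) (x 2) : ℤ) + e (a 1) (a 2) (x 0) (x 2)
        + e (a 1) (a 2) (x 0) (x 1) + e (a 0) (a 2) (x 1) (x 2) + e (a 0) (a 2) (x 0) (x 2)
        + e (a 0) (a 2) (x 0) (x 1) + e (a 0) (a 1) (x 1) (x 2) + e (a 0) (a 1) (x 0) (x 2)
        + e (a 0) (a 1) (x 0) (x 1)) + 301989888) := by
    refine sum_le_sum fun a _ => sum_le_sum fun x _ => ?_
    have := pt33 h (a 0) (a 1) (a 2) (x 0) (x 1) (x 2)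
    zify at this
    linarith
  simp only [sum_add_distrib, ← mul_sum, sum_const, card_univ, Fintype.card_fun, Fintype.card_fin,
    nsmul_eq_mul] at hs
  have i0 : Function.Injective (![0, 1, 2] : Fin 3 → Fin 3) := by decide
  have i1 : Function.Injective (![0, 2, 1] : Fin 3 → Fin 3) := by decide
  have i2 : Function.Injective (![1, 2, 0] : Fin 3 → Fin 3) := by decide
  have i3 : Function.Injective (![1, 0, 2] : Fin 3 → Fin 3) := by decide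
  have i4 : Function.Injective (![2, 0, 1] : Fin 3 → Fin 3) := by decide
  -- the products with the table
  have T := (TAB_eq (g := g) (e := e) (d := d)).symm
  have b1 := pp (F := fun a b c x y z => (PB g e d a b c x y z : ℤ)) T ![1, 2, 0] ![1, 2, 0] i2 i2
  have b2 := pp (F := fun a b c x y z => (PB g e d a b c x y z : ℤ)) T ![1, 2, 0] ![0, 2, 1] i2 i1
  have b3 := pp (F := fun a b c x y z => (PB g e d a b c x y z : ℤ)) T ![1, 2, 0] ![0, 1, 2] i2 i0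
  have b4 := pp (F := fun a b c x y z => (PB g e d a b c x y z : ℤ)) T ![0, 2, 1] ![1, 2, 0] i1 i2
  have b5 := pp (F := fun a b c x y z => (PB g e d a b c x y z : ℤ)) T ![0, 2, 1] ![0, 2, 1] i1 i1
  have b6 := pp (F := fun a b c x y z => (PB g e d a b c x y z : ℤ)) T ![0, 2, 1] ![0, 1, 2] i1 i0
  have b7 := pp (F := fun a b c x y z => (PB g e d a b c x y z : ℤ)) T ![0, 1, 2] ![1, 2, 0] i0 i2
  have b8 := pp (F := fun a b c x y z => (PB g e d a b c x y z : ℤ)) T ![0, 1, 2] ![0, 2, 1] i0 i1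
  have D := (GD_eq (g := g) (d := d)).symm
  have c1 := pp (F := fun a b c x y z => (g a b c x : ℤ) * (d a x y z : ℤ)) D ![1, 0, 2] ![0, 1, 2] i3 i0
  have c2 := pp (F := fun a b c x y z => (g a b c x : ℤ) * (d a x y z : ℤ)) D ![2, 0, 1] ![0, 1, 2] i4 i0
  have c3 := pp (F := fun a b c x y z => (g a b c x : ℤ) * (d a x y z : ℤ)) D ![0, 1, 2] ![1, 0, 2] i0 i3
  have c4 := pp (F := fun a b c x y z => (g a b c x : ℤ) * (d a x y z : ℤ)) D ![1, 0, 2] ![1, 0, 2] i3 i3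
  have c5 := pp (F := fun a b c x y z => (g a b c x : ℤ) * (d a x y z : ℤ)) D ![2, 0, 1] ![1, 0, 2] i4 i3
  have c6 := pp (F := fun a b c x y z => (g a b c x : ℤ) * (d a x y z : ℤ)) D ![0, 1, 2] ![2, 0, 1] i0 i4
  have c7 := pp (F := fun a b c x y z => (g a b c x : ℤ) * (d a x y z : ℤ)) D ![1, 0, 2] ![2, 0, 1] i3 i4
  have c8 := pp (F := fun a b c x y z => (g a b c x : ℤ) * (d a x y z : ℤ)) D ![2, 0, 1] ![2, 0, 1] i4 i4
  have gs : ∀ a b c x, g b a c x = g a b c x := h.g12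
  have g3 : ∀ a b c x, g c a b x = g a b c x := fun a b c x => by rw [h.g12 a c b, h.g23 a b c]
  have ds : ∀ a x y z, d a y x z = d a x y z := h.d23
  have d3 : ∀ a x y z, d a z x y = d a x y z := fun a x y z => by rw [h.d23 a x z y, h.d34 a x y z]
  change ∑ a : Fin 3 → α, ∑ x : Fin 3 → β, (PB g e d (a 1) (a 2) (a 0) (x 1) (x 2) (x 0) : ℤ) = _ at b1
  change ∑ a : Fin 3 → α, ∑ x : Fin 3 → β, (PB g e d (a 1) (a 2) (a 0) (x 0) (x 2) (x 1) : ℤ) = _ at b2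
  change ∑ a : Fin 3 → α, ∑ x : Fin 3 → β, (PB g e d (a 1) (a 2) (a 0) (x 0) (x 1) (x 2) : ℤ) = _ at b3
  change ∑ a : Fin 3 → α, ∑ x : Fin 3 → β, (PB g e d (a 0) (a 2) (a 1) (x 1) (x 2) (x 0) : ℤ) = _ at b4
  change ∑ a : Fin 3 → α, ∑ x : Fin 3 → β, (PB g e d (a 0) (a 2) (a 1) (x 0) (x 2) (x 1) : ℤ) = _ at b5
  change ∑ a : Fin 3 → α, ∑ x : Fin 3 → β, (PB g e d (a 0) (a 2) (a 1) (x 0) (x 1) (x 2) : ℤ) = _ at b6
  change ∑ a : Fin 3 → α, ∑ x : Fin 3 → β, (PB g e d (a 0) (a 1) (a 2) (x 1) (x 2) (x 0) : ℤ) = _ at b7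
  change ∑ a : Fin 3 → α, ∑ x : Fin 3 → β, (PB g e d (a 0) (a 1) (a 2) (x 0) (x 2) (x 1) : ℤ) = _ at b8
  change ∑ a : Fin 3 → α, ∑ x : Fin 3 → β, (g (a 1) (a 0) (a 2) (x 0) : ℤ) * (d (a 1) (x 0) (x 1) (x 2) : ℤ) = _ at c1
  change ∑ a : Fin 3 → α, ∑ x : Fin 3 → β, (g (a 2) (a 0) (a 1) (x 0) : ℤ) * (d (a 2) (x 0) (x 1) (x 2) : ℤ) = _ at c2
  change ∑ a : Fin 3 → α, ∑ x : Fin 3 → β, (g (a 0) (a 1) (a 2) (x 1) : ℤ) * (d (a 0) (x 1) (x 0) (x 2) : ℤ) = _ at c3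
  change ∑ a : Fin 3 → α, ∑ x : Fin 3 → β, (g (a 1) (a 0) (a 2) (x 1) : ℤ) * (d (a 1) (x 1) (x 0) (x 2) : ℤ) = _ at c4
  change ∑ a : Fin 3 → α, ∑ x : Fin 3 → β, (g (a 2) (a 0) (a 1) (x 1) : ℤ) * (d (a 2) (x 1) (x 0) (x 2) : ℤ) = _ at c5
  change ∑ a : Fin 3 → α, ∑ x : Fin 3 → β, (g (a 0) (a 1) (a 2) (x 2) : ℤ) * (d (a 0) (x 2) (x 0) (x 1) : ℤ) = _ at c6
  change ∑ a : Fin 3 → α, ∑ x : Fin 3 → β, (g (a 1) (a 0) (a 2) (x 2) : ℤ) * (d (a 1) (x 2) (x 0) (x 1) : ℤ) = _ at c7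
  change ∑ a : Fin 3 → α, ∑ x : Fin 3 → β, (g (a 2) (a 0) (a 1) (x 2) : ℤ) * (d (a 2) (x 2) (x 0) (x 1) : ℤ) = _ at c8
  have gp1 : ∀ (a : Fin 3 → α) x, g (a 1) (a 0) (a 2) x = g (a 0) (a 1) (a 2) x := fun a x => gs _ _ _ _
  have gp2 : ∀ (a : Fin 3 → α) x, g (a 2) (a 0) (a 1) x = g (a 0) (a 1) (a 2) x := fun a x => g3 _ _ _ _
  have dp1 : ∀ a (x : Fin 3 → β), d a (x 1) (x 0) (x 2) = d a (x 0) (x 1) (x 2) := fun a x => ds _ _ _ _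
  have dp2 : ∀ a (x : Fin 3 → β), d a (x 2) (x 0) (x 1) = d a (x 0) (x 1) (x 2) := fun a x => d3 _ _ _ _
  simp only [gp1, gp2, dp1, dp2] at c1 c2 c3 c4 c5 c6 c7 c8
  -- linear terms
  have Sg := (S31_eq (g := g)).symm
  have e1 := pp (F := fun a b c x _ _ => (g a b c x : ℤ)) Sg ![0, 1, 2] ![1, 0, 2] i0 i3
  have e2 := pp (F := fun a b c x _ _ => (g a b c x : ℤ)) Sg ![0, 1, 2] ![2, 0, 1] i0 i4
  have Sd := (S13_eq (d := d) (α := α)).symm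
  have f1 := pp (F := fun a _ _ x y z => (d a x y z : ℤ)) Sd ![1, 0, 2] ![0, 1, 2] i3 i0
  have f2 := pp (F := fun a _ _ x y z => (d a x y z : ℤ)) Sd ![2, 0, 1] ![0, 1, 2] i4 i0
  have Se := (S22_eq (e := e)).symm
  have h1 := pp (F := fun a b _ x y _ => (e a b x y : ℤ)) Se ![1, 2, 0] ![1, 2, 0] i2 i2
  have h2 := pp (F := fun a b _ x y _ => (e a b x y : ℤ)) Se ![1, 2, 0] ![0, 2, 1] i2 i1
  have h3 := pp (F := fun a b _ x y _ => (e a b x y : ℤ)) Se ![1, 2, 0] ![0, 1, 2] i2 i0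
  have h4 := pp (F := fun a b _ x y _ => (e a b x y : ℤ)) Se ![0, 2, 1] ![1, 2, 0] i1 i2
  have h5 := pp (F := fun a b _ x y _ => (e a b x y : ℤ)) Se ![0, 2, 1] ![0, 2, 1] i1 i1
  have h6 := pp (F := fun a b _ x y _ => (e a b x y : ℤ)) Se ![0, 2, 1] ![0, 1, 2] i1 i0
  have h7 := pp (F := fun a b _ x y _ => (e a b x y : ℤ)) Se ![0, 1, 2] ![1, 2, 0] i0 i2
  have h8 := pp (F := fun a b _ x y _ => (e a b x y : ℤ)) Se ![0, 1, 2] ![0, 2, 1] i0 i1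
  change ∑ a : Fin 3 → α, ∑ x : Fin 3 → β, (g (a 0) (a 1) (a 2) (x 1) : ℤ) = _ at e1
  change ∑ a : Fin 3 → α, ∑ x : Fin 3 → β, (g (a 0) (a 1) (a 2) (x 2) : ℤ) = _ at e2
  change ∑ a : Fin 3 → α, ∑ x : Fin 3 → β, (d (a 1) (x 0) (x 1) (x 2) : ℤ) = _ at f1
  change ∑ a : Fin 3 → α, ∑ x : Fin 3 → β, (d (a 2) (x 0) (x 1) (x 2) : ℤ) = _ at f2
  change ∑ a : Fin 3 → α, ∑ x : Fin 3 → β, (e (a 1) (a 2) (x 1) (x 2) : ℤ) = _ at h1
  change ∑ a : Fin 3 → α, ∑ x : Fin 3 → β, (e (a 1) (a 2) (x 0) (x 2) : ℤ) = _ at h2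
  change ∑ a : Fin 3 → α, ∑ x : Fin 3 → β, (e (a 1) (a 2) (x 0) (x 1) : ℤ) = _ at h3
  change ∑ a : Fin 3 → α, ∑ x : Fin 3 → β, (e (a 0) (a 2) (x 1) (x 2) : ℤ) = _ at h4
  change ∑ a : Fin 3 → α, ∑ x : Fin 3 → β, (e (a 0) (a 2) (x 0) (x 2) : ℤ) = _ at h5
  change ∑ a : Fin 3 → α, ∑ x : Fin 3 → β, (e (a 0) (a 2) (x 0) (x 1) : ℤ) = _ at h6
  change ∑ a : Fin 3 → α, ∑ x : Fin 3 → β, (e (a 0) (a 1) (x 1) (x 2) : ℤ) = _ at h7
  change ∑ a : Fin 3 → α, ∑ x : Fin 3 → β, (e (a 0) (a 1) (x 0) (x 2) : ℤ) = _ at h8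
  rw [b1, b2, b3, b4, b5, b6, b7, b8, T, c1, c2, c3, c4, c5, c6, c7, c8, D, Sg, e1, e2, Sd, f1, f2,
    h1, h2, h3, h4, h5, h6, h7, h8, Se] at hs
  push_cast at hs
  linarith

end

end Pool.Agent.W650.G54
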